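import Mathlib

/-!
Disproof of the expectation that every hyperelliptic curve can be made ordinary by moving one
branch point.

Let `k` be algebraically closed of characteristic `p > 2` and `N = (p-1)/2`. On the curve
`y^2 = f(x)`, `f` squarefree of degree `2g+1`, the differential `u dx/y` with `deg u < g` is
holomorphic, and it is killed by the Cartier operator iff no monomial `x^(pj-1)` occurs in
`u f^N`. If `h` is separable of degree `2g` and `w` is nonzero with `deg w + (p+1)/2 < g` and
`w h^N` has no monomial `x^(pj-1)`, then for `f = (x-mu) h` and `u = (x-mu)^((p+1)/2) w` one has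
`u f^N = (x-mu)^p w h^N`, so `u dx/y` is a nonzero holomorphic differential killed by the Cartier
operator, for every `mu`. The file constructs such `h, w` for every `g` with `2g ≥ p+3`, and proves
from scratch that a nonzero holomorphic differential killed by the Cartier operator forces the
`p`-torsion of `Pic (k[x,y]/(y^2-f))` to have at most `p^(g-1)` elements.
-/

open Polynomial nonZeroDivisors

namespace Pool.Agent.Results.MP_2ca583_ag.Disproof

/-- The affine coordinate ring `k[x,y]/(y^2 - f(x))` of the curve `y^2 = f(x)`. -/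
abbrev CoordRing {k : Type*} [Field k] (f : k[X]) : Type _ :=
  AdjoinRoot (X ^ 2 - C f : k[X][X])

/-- `HasPRank p f r`: the `p`-torsion subgroup of the Picard group of `k[x,y]/(y^2 - f)` has exactly
`p ^ r` elements. For `k` algebraically closed of characteristic `p` and `f` squarefree of odd
degree the smooth projective model `X` of `y^2 = f(x)` has exactly one point at infinity, so
`Pic (k[x,y]/(y^2 - f)) = Pic^0 X = Jac(X)(k)` and this says that the `p`-rank of `X` is `r`. -/
def HasPRank {k : Type*} [Field k] (p : ℕ) (f : k[X]) (r : ℕ) : Prop :=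
  Nat.card {c : CommRing.Pic (CoordRing f) // c ^ p = 1} = p ^ r

section

variable {k : Type*} [Field k] (p : ℕ) [Fact p.Prime] [CharP k p] [PerfectRing k p]

/-- Cartier operator on k[x] dx: coefficient n is the p-th root of coefficient n p + p - 1. -/
noncomputable def cart (F : k[X]) : k[X] :=
  ((contract p (X * F)).divX).map ((frobeniusEquiv k p).symm : k →+* k)

lemma coeff_cart (F : k[X]) (n : ℕ) :
    (cart p F).coeff n = (frobeniusEquiv k p).symm (F.coeff (n * p + (p - 1))) := by
  have hp : p ≠ 0 := (Fact.out : p.Prime).ne_zero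
  have h1 : (n + 1) * p = (n * p + (p - 1)) + 1 := by
    have : 1 ≤ p := (Fact.out : p.Prime).one_le
    rw [add_mul]; omega
  simp only [cart, coeff_map, coeff_divX, coeff_contract hp, h1, coeff_X_mul]
  rfl

lemma cart_add (F G : k[X]) : cart p (F + G) = cart p F + cart p G := by
  ext n; simp only [coeff_cart, coeff_add, map_add]

lemma cart_zero : cart p (0 : k[X]) = 0 := by
  ext n; simp only [coeff_cart, coeff_zero, map_zero]

lemma cart_neg (F : k[X]) : cart p (-F) = -cart p F := by
  ext n; simp only [coeff_cart, coeff_neg, map_neg]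

lemma cart_sub (F G : k[X]) : cart p (F - G) = cart p F - cart p G := by
  ext n; simp only [coeff_cart, coeff_sub, map_sub]

lemma cart_sum {ι : Type*} (s : Finset ι) (F : ι → k[X]) :
    cart p (∑ i ∈ s, F i) = ∑ i ∈ s, cart p (F i) := by
  classical
  induction s using Finset.induction_on with
  | empty => simp [cart_zero]
  | insert a s ha ih => rw [Finset.sum_insert ha, Finset.sum_insert ha, cart_add, ih]

/-- the p-th power of a polynomial is an expansion -/
lemma pow_eq_expand (G : k[X]) : G ^ p = expand k p (G.map (frobenius k p)) := by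
  rw [← map_expand, map_frobenius_expand]

lemma cart_pow_mul (G F : k[X]) : cart p (G ^ p * F) = G * cart p F := by
  have hp : p ≠ 0 := (Fact.out : p.Prime).ne_zero
  have h1 : X * (G ^ p * F) = (X * F) * expand k p (G.map (frobenius k p)) := by
    rw [pow_eq_expand]; ring
  have h2 : (contract p (X * F)).coeff 0 = 0 := by
    rw [coeff_contract hp]; simp
  have h3 : contract p (X * F) = X * (contract p (X * F)).divX := by
    conv_lhs => rw [← divX_mul_X_add (contract p (X * F)), h2]
    simp [mul_comm]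
  have h4 : ∀ H : k[X], (X * H).divX = H := by
    intro H; ext n; simp [coeff_divX]
  unfold cart
  rw [h1, contract_mul_expand hp, h3, mul_assoc, h4, h4, Polynomial.map_mul, Polynomial.map_map]
  have h5 : (((frobeniusEquiv k p).symm : k →+* k).comp (frobenius k p)) = RingHom.id k := by
    ext x; simp
  rw [h5, Polynomial.map_id, mul_comm]

lemma cart_derivative (F : k[X]) : cart p (derivative F) = 0 := by
  ext n
  have h1 : ((n * p + (p - 1) : ℕ) : k) + 1 = 0 := by
    have : 1 ≤ p := (Fact.out : p.Prime).one_le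
    have h2 : (n * p + (p - 1)) + 1 = (n + 1) * p := by rw [add_mul]; omega
    rw [← Nat.cast_succ, Nat.succ_eq_add_one, h2, Nat.cast_mul, CharP.cast_eq_zero k p, mul_zero]
  rw [coeff_cart, coeff_derivative, h1, mul_zero, map_zero, coeff_zero]

end

section

lemma deriv_pow {A : Type*} [CommRing A] (D : A →+ A) (hD : ∀ a b, D (a * b) = a * D b + b * D a)
    (a : A) (n : ℕ) : D (a ^ n) = n * a ^ (n - 1) * D a := by
  have hD1 : D 1 = 0 := by
    have := hD 1 1
    simp only [one_mul] at this
    simpa using this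
  induction n with
  | zero => simp [hD1]
  | succ m ih =>
    rw [pow_succ, hD, ih]
    rcases m with _ | m
    · simp
    · simp only [Nat.add_sub_cancel]
      push_cast
      ring

lemma deriv_natCast_mul {A : Type*} [CommRing A] (D : A →+ A) (n : ℕ) (a : A) :
    D (n * a) = n * D a := by
  rw [← nsmul_eq_mul, map_nsmul, nsmul_eq_mul]

/-- The classical identity: for a derivation `D` of a commutative ring and a prime `p`, the
difference `(a+b)^(p-1) D(a+b) - a^(p-1) D a - b^(p-1) D b` is a value of `D`. -/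
lemma exists_primitive {A : Type*} [CommRing A] (D : A →+ A)
    (hD : ∀ a b, D (a * b) = a * D b + b * D a) (p : ℕ) (hp : p.Prime) (a b : A) :
    ∃ P : A, (a + b) ^ (p - 1) * D (a + b) = a ^ (p - 1) * D a + b ^ (p - 1) * D b + D P := by
  obtain ⟨q, rfl⟩ : ∃ q, p = q + 1 := ⟨p - 1, (Nat.sub_add_cancel hp.one_le).symm⟩
  have hq : 1 ≤ q := by have := hp.two_le; omega
  refine ⟨∑ j ∈ Finset.range q, (((q + 1).choose (j + 1) / (q + 1) : ℕ) : A)
      * (a ^ (j + 1) * b ^ (q - j)), ?_⟩
  simp only [Nat.add_sub_cancel]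
  have key1 : ∀ j ∈ Finset.range q, (q + 1).choose (j + 1) / (q + 1) * (j + 1) = q.choose j := by
    intro j hj
    have hj' := Finset.mem_range.1 hj
    obtain ⟨c, hc⟩ := hp.dvd_choose_self (Nat.succ_ne_zero j) (by omega : j + 1 < q + 1)
    rw [Nat.succ_eq_add_one] at hc
    have h2 := Nat.add_one_mul_choose_eq q j
    rw [hc] at h2 ⊢
    rw [Nat.mul_div_cancel_left _ (Nat.succ_pos q)]
    have : (q + 1) * q.choose j = (q + 1) * (c * (j + 1)) := by rw [h2]; ring
    exact (Nat.eq_of_mul_eq_mul_left (Nat.succ_pos q) this).symm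
  have key2 : ∀ j ∈ Finset.range q, (q + 1).choose (j + 1) / (q + 1) * (q - j) = q.choose (j + 1) := by
    intro j hj
    have hj' := Finset.mem_range.1 hj
    have h3 := key1 j hj
    obtain ⟨c, hc⟩ := hp.dvd_choose_self (Nat.succ_ne_zero j) (by omega : j + 1 < q + 1)
    rw [Nat.succ_eq_add_one] at hc
    rw [hc, Nat.mul_div_cancel_left _ (Nat.succ_pos q)] at h3 ⊢
    have h4 := Nat.choose_succ_right_eq q j
    rw [← h3] at h4
    have : (j + 1) * (c * (q - j)) = (j + 1) * q.choose (j + 1) := by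
      calc (j + 1) * (c * (q - j)) = c * (j + 1) * (q - j) := by ring
        _ = q.choose (j + 1) * (j + 1) := h4.symm
        _ = _ := by ring
    exact Nat.eq_of_mul_eq_mul_left (Nat.succ_pos j) this
  have hDsum : D (∑ j ∈ Finset.range q, (((q + 1).choose (j + 1) / (q + 1) : ℕ) : A)
      * (a ^ (j + 1) * b ^ (q - j)))
      = (∑ j ∈ Finset.range q, (q.choose j : A) * (a ^ j * b ^ (q - j))) * D a
        + (∑ j ∈ Finset.range q, (q.choose (j + 1) : A) * (a ^ (j + 1) * b ^ (q - (j + 1)))) * D b := by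
    rw [map_sum, Finset.sum_mul, Finset.sum_mul, ← Finset.sum_add_distrib]
    refine Finset.sum_congr rfl fun j hj => ?_
    have hj' := Finset.mem_range.1 hj
    rw [deriv_natCast_mul, hD, deriv_pow D hD, deriv_pow D hD]
    have e1 : (q.choose j : A) = (((q + 1).choose (j + 1) / (q + 1) : ℕ) : A) * ((j : A) + 1) := by
      rw [← key1 j hj]; push_cast; ring
    have e2 : (q.choose (j + 1) : A)
        = (((q + 1).choose (j + 1) / (q + 1) : ℕ) : A) * (((q - j : ℕ)) : A) := by
      rw [← key2 j hj]; push_cast; ring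
    rw [e1, e2]
    have e3 : j + 1 - 1 = j := rfl
    have e4 : q - j - 1 = q - (j + 1) := by omega
    rw [e3, e4]
    push_cast
    ring
  rw [hDsum, map_add]
  have s1 : (∑ j ∈ Finset.range q, (q.choose j : A) * (a ^ j * b ^ (q - j))) + a ^ q = (a + b) ^ q := by
    rw [add_pow, Finset.sum_range_succ]
    simp only [Nat.choose_self, Nat.cast_one, Nat.sub_self, pow_zero, mul_one, add_left_inj]
    exact Finset.sum_congr rfl fun j _ => by ring
  have s2 : (∑ j ∈ Finset.range q, (q.choose (j + 1) : A) * (a ^ (j + 1) * b ^ (q - (j + 1)))) + b ^ q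
      = (a + b) ^ q := by
    rw [add_pow, Finset.sum_range_succ']
    simp only [Nat.choose_zero_right, Nat.cast_one, Nat.sub_zero, pow_zero, mul_one, one_mul,
      add_left_inj]
    exact Finset.sum_congr rfl fun j _ => by ring
  calc (a + b) ^ q * (D a + D b) = (a + b) ^ q * D a + (a + b) ^ q * D b := by ring
    _ = ((∑ j ∈ Finset.range q, (q.choose j : A) * (a ^ j * b ^ (q - j))) + a ^ q) * D a
        + ((∑ j ∈ Finset.range q, (q.choose (j + 1) : A) * (a ^ (j + 1) * b ^ (q - (j + 1)))) + b ^ q)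
          * D b := by rw [s1, s2]
    _ = _ := by ring

end

section

variable {k : Type*} [Field k] (p : ℕ) [Fact p.Prime] [CharP k p] [PerfectRing k p]

lemma deriv_leibniz (a b : k[X]) : derivative (a * b) = a * derivative b + b * derivative a := by
  rw [derivative_mul]; ring

lemma cart_pow_mul_derivative (b : k[X]) : cart p (b ^ (p - 1) * derivative b) = derivative b := by
  have hp1 : 1 ≤ p := (Fact.out : p.Prime).one_le
  induction b using Polynomial.induction_on' with
  | add a b ha hb =>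
    obtain ⟨P, hP⟩ := exists_primitive (derivative : k[X] →ₗ[k] k[X]).toAddMonoidHom
      (fun a b => deriv_leibniz a b) p Fact.out a b
    simp only [LinearMap.toAddMonoidHom_coe] at hP
    rw [hP, cart_add, cart_add, ha, hb, cart_derivative, add_zero, derivative_add]
  | monomial n c =>
    rcases n with _ | n
    · simp [cart_zero]
    · have h1 : (monomial (n + 1) c : k[X]) ^ (p - 1) * derivative (monomial (n + 1) c)
          = (monomial n (c * ((n : k) + 1)) : k[X]) ^ p * X ^ (p - 1) := by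
        rw [derivative_monomial, monomial_pow, monomial_pow, monomial_mul_monomial,
          X_pow_eq_monomial, monomial_mul_monomial]
        simp only [Nat.add_sub_cancel, mul_one, Nat.cast_add, Nat.cast_one]
        congr 1
        · obtain ⟨q, rfl⟩ : ∃ q, p = q + 1 := ⟨p - 1, (Nat.sub_add_cancel hp1).symm⟩
          simp only [Nat.add_sub_cancel]; ring_nf
        · rw [mul_pow, ← mul_assoc, ← pow_succ, Nat.sub_add_cancel hp1]
          congr 1
          have h2 : (((n + 1 : ℕ) : k)) ^ p = ((n + 1 : ℕ) : k) := by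
            have := map_natCast (frobenius k p) (n + 1)
            rwa [frobenius_def] at this
          push_cast at h2
          exact h2.symm
      have h3 : cart p ((X : k[X]) ^ (p - 1)) = 1 := by
        ext m
        rw [coeff_cart, coeff_X_pow, coeff_one]
        rcases m with _ | m
        · simp
        · have : ¬ ((m + 1) * p + (p - 1) = p - 1) := by
            have : 0 < (m + 1) * p := by positivity
            omega
          rw [if_neg this, map_zero, if_neg (Nat.succ_ne_zero m)]
      rw [h1, cart_pow_mul, h3, mul_one, derivative_monomial]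
      simp

end

section

variable {k : Type*} [Field k]

lemma monic_g (f : k[X]) : (X ^ 2 - C f : k[X][X]).Monic := monic_X_pow_sub_C f two_ne_zero

lemma degree_g (f : k[X]) : (X ^ 2 - C f : k[X][X]).degree = 2 := by
  rw [degree_X_pow_sub_C (by norm_num)]; rfl

/-- the element `a(x) + b(x) y` -/
noncomputable def el (f : k[X]) (a b : k[X]) : CoordRing f :=
  AdjoinRoot.of (X ^ 2 - C f : k[X][X]) a
    + AdjoinRoot.of (X ^ 2 - C f : k[X][X]) b * AdjoinRoot.root (X ^ 2 - C f : k[X][X])

noncomputable def re {f : k[X]} (r : CoordRing f) : k[X] :=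
  (AdjoinRoot.modByMonicHom (monic_g f) r).coeff 0

noncomputable def im {f : k[X]} (r : CoordRing f) : k[X] :=
  (AdjoinRoot.modByMonicHom (monic_g f) r).coeff 1

lemma el_re_im {f : k[X]} (r : CoordRing f) : el f (re r) (im r) = r := by
  obtain ⟨q, rfl⟩ := AdjoinRoot.mk_surjective r
  have h0 : AdjoinRoot.mk (X ^ 2 - C f : k[X][X]) (q %ₘ (X ^ 2 - C f)) = AdjoinRoot.mk _ q := by
    have := AdjoinRoot.mk_leftInverse (monic_g f) (AdjoinRoot.mk _ q)
    rwa [AdjoinRoot.modByMonicHom_mk] at this
  have hd : (q %ₘ (X ^ 2 - C f)).degree < 2 := by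
    have := degree_modByMonic_lt q (monic_g f)
    rwa [degree_g] at this
  have h1 : q %ₘ (X ^ 2 - C f) = C ((q %ₘ (X ^ 2 - C f)).coeff 0)
      + C ((q %ₘ (X ^ 2 - C f)).coeff 1) * X := by
    have h2 : (q %ₘ (X ^ 2 - C f)).natDegree ≤ 1 := by
      rw [natDegree_le_iff_coeff_eq_zero]
      intro N hN
      exact (degree_lt_iff_coeff_zero _ 2).1 hd N hN
    conv_lhs => rw [eq_X_add_C_of_natDegree_le_one h2]
    ring
  unfold el re im
  rw [AdjoinRoot.modByMonicHom_mk]
  conv_rhs => rw [← h0, h1]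
  simp

lemma modByMonicHom_el (f a b : k[X]) :
    AdjoinRoot.modByMonicHom (monic_g f) (el f a b) = C a + C b * X := by
  have h1 : el f a b = AdjoinRoot.mk (X ^ 2 - C f : k[X][X]) (C a + C b * X) := by
    simp [el]
  rw [h1, AdjoinRoot.modByMonicHom_mk, (modByMonic_eq_self_iff (monic_g f)).2]
  rw [degree_g]
  calc (C a + C b * X : k[X][X]).degree = (C b * X + C a).degree := by rw [add_comm]
    _ ≤ 1 := degree_linear_le
    _ < 2 := by norm_num

@[simp] lemma re_el (f a b : k[X]) : re (el f a b) = a := by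
  rw [re, modByMonicHom_el]; simp

@[simp] lemma im_el (f a b : k[X]) : im (el f a b) = b := by
  rw [im, modByMonicHom_el]; simp

lemma root_sq (f : k[X]) : (AdjoinRoot.root (X ^ 2 - C f : k[X][X])) ^ 2
    = AdjoinRoot.of (X ^ 2 - C f : k[X][X]) f := by
  have h := AdjoinRoot.eval₂_root (X ^ 2 - C f : k[X][X])
  simp only [eval₂_sub, eval₂_X_pow, eval₂_C] at h
  exact sub_eq_zero.1 h

lemma el_add (f a b c d : k[X]) : el f a b + el f c d = el f (a + c) (b + d) := by
  simp only [el, map_add]; ring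

lemma el_mul (f a b c d : k[X]) : el f a b * el f c d = el f (a * c + b * d * f) (a * d + b * c) := by
  have h := root_sq f
  simp only [el, map_add, map_mul]
  linear_combination (AdjoinRoot.of (X ^ 2 - C f : k[X][X]) b)
    * (AdjoinRoot.of (X ^ 2 - C f : k[X][X]) d) * h

lemma el_zero (f : k[X]) : el f 0 0 = 0 := by simp [el]

lemma el_one (f : k[X]) : el f 1 0 = 1 := by simp [el]

lemma el_inj {f a b c d : k[X]} (h : el f a b = el f c d) : a = c ∧ b = d := by
  constructor
  · rw [← re_el f a b, h, re_el]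
  · rw [← im_el f a b, h, im_el]

lemma ext_el {f : k[X]} {r s : CoordRing f} (h1 : re r = re s) (h2 : im r = im s) : r = s := by
  rw [← el_re_im r, ← el_re_im s, h1, h2]

@[simp] lemma re_add {f : k[X]} (r s : CoordRing f) : re (r + s) = re r + re s := by
  simp [re]

@[simp] lemma im_add {f : k[X]} (r s : CoordRing f) : im (r + s) = im r + im s := by
  simp [im]

@[simp] lemma re_zero {f : k[X]} : re (0 : CoordRing f) = 0 := by
  simp [re]

@[simp] lemma im_zero {f : k[X]} : im (0 : CoordRing f) = 0 := by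
  simp [im]

lemma re_mul {f : k[X]} (r s : CoordRing f) : re (r * s) = re r * re s + im r * im s * f := by
  conv_lhs => rw [← el_re_im r, ← el_re_im s, el_mul, re_el]

lemma im_mul {f : k[X]} (r s : CoordRing f) : im (r * s) = re r * im s + im r * re s := by
  conv_lhs => rw [← el_re_im r, ← el_re_im s, el_mul, im_el]

end

section

variable {k : Type*} [Field k]

/-- the derivation `2 y d/dx` of the coordinate ring -/
noncomputable def dd (f : k[X]) : CoordRing f →+ CoordRing f where
  toFun r := el f (2 * derivative (im r) * f + im r * derivative f) (2 * derivative (re r))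
  map_zero' := by simp [el_zero]
  map_add' r s := by
    rw [el_add]
    simp only [re_add, im_add, derivative_add]
    congr 1 <;> ring

lemma dd_apply (f : k[X]) (r : CoordRing f) :
    dd f r = el f (2 * derivative (im r) * f + im r * derivative f) (2 * derivative (re r)) := rfl

lemma dd_leibniz (f : k[X]) (r s : CoordRing f) :
    dd f (r * s) = r * dd f s + s * dd f r := by
  apply ext_el
  · simp only [dd_apply, re_add, re_mul, im_mul, re_el, im_el, derivative_add, derivative_mul]
    ring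
  · simp only [dd_apply, im_add, re_mul, im_mul, re_el, im_el, derivative_add, derivative_mul]
    ring

lemma of_injective (f : k[X]) :
    Function.Injective (AdjoinRoot.of (X ^ 2 - C f : k[X][X])) := by
  apply AdjoinRoot.of.injective_of_degree_ne_zero
  rw [degree_g]; norm_num

lemma coordRing_nontrivial (f : k[X]) : Nontrivial (CoordRing f) :=
  AdjoinRoot.nontrivial _ (by rw [degree_g]; norm_num)

lemma charP_coordRing (p : ℕ) [CharP k p] (f : k[X]) : CharP (CoordRing f) p :=
  charP_of_injective_ringHom (f := (AdjoinRoot.of (X ^ 2 - C f : k[X][X])).comp C)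
    ((of_injective f).comp C_injective) p

variable (p : ℕ) [Fact p.Prime] [CharP k p]

lemma el_pow (f a b : k[X]) (hp2 : 2 < p) :
    (el f a b) ^ p = el f (a ^ p) (b ^ p * f ^ ((p - 1) / 2)) := by
  haveI := charP_coordRing p f
  have hodd : p = 2 * ((p - 1) / 2) + 1 := by
    have : Odd p := (Fact.out : p.Prime).odd_of_ne_two (by omega)
    obtain ⟨m, hm⟩ := this
    omega
  have hy : (AdjoinRoot.root (X ^ 2 - C f : k[X][X])) ^ p
      = AdjoinRoot.of (X ^ 2 - C f : k[X][X]) (f ^ ((p - 1) / 2))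
        * AdjoinRoot.root (X ^ 2 - C f : k[X][X]) := by
    conv_lhs => rw [hodd, pow_succ, pow_mul, root_sq]
    rw [map_pow]
  unfold el
  rw [add_pow_char, mul_pow, hy]
  simp only [map_mul, map_pow]
  ring

variable [PerfectRing k p]

/-- the Cartier operator on `K dx/y` restricted to the coordinate ring: `F ↦ y C(F dx / y)/dx`. -/
noncomputable def CC (f : k[X]) (r : CoordRing f) : CoordRing f :=
  el f (cart p (re r * f ^ ((p - 1) / 2))) (cart p (im r))

lemma CC_add (f : k[X]) (r s : CoordRing f) : CC p f (r + s) = CC p f r + CC p f s := by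
  unfold CC
  rw [el_add, re_add, im_add, add_mul, cart_add, cart_add]

lemma two_mul_half (hp2 : 2 < p) : 2 * ((p - 1) / 2) + 1 = p := by
  have : Odd p := (Fact.out : p.Prime).odd_of_ne_two (by omega)
  obtain ⟨m, hm⟩ := this
  omega

lemma CC_dd (hp2 : 2 < p) (f : k[X]) (r : CoordRing f) : CC p f (dd f r) = 0 := by
  have hN := two_mul_half p hp2
  set N := (p - 1) / 2 with hNdef
  have hc : (2 * ((N : k[X]) + 1)) = 1 := by
    have h1 : ((p : ℕ) : k[X]) = 0 := CharP.cast_eq_zero k[X] p
    rw [← hN] at h1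
    push_cast at h1
    linear_combination h1
  have h1 : (2 * derivative (im r) * f + im r * derivative f) * f ^ N
      = derivative (2 * (im r * f ^ (N + 1))) := by
    have h2 : derivative (2 : k[X]) = 0 := by
      have := derivative_natCast (R := k) (n := 2)
      simpa using this
    rw [derivative_mul, h2, derivative_mul, derivative_pow]
    simp only [Nat.add_sub_cancel, Nat.cast_add, Nat.cast_one, map_add, map_natCast, map_one]
    linear_combination (-(im r * f ^ N * derivative f)) * hc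
  have h3 : (2 * derivative (re r) : k[X]) = derivative (re r + re r) := by
    rw [derivative_add]; ring
  rw [dd_apply]
  unfold CC
  rw [re_el, im_el, ← hNdef, h1, cart_derivative, h3, cart_derivative, el_zero]

lemma CC_pow_mul (hp2 : 2 < p) (f : k[X]) (c r : CoordRing f) :
    CC p f (c ^ p * r) = c * CC p f r := by
  have hN := two_mul_half p hp2
  set N := (p - 1) / 2 with hNdef
  have hc : c ^ p = el f ((re c) ^ p) ((im c) ^ p * f ^ N) := by
    conv_lhs => rw [← el_re_im c]
    rw [el_pow p f _ _ hp2]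
  apply ext_el
  · rw [re_mul]
    unfold CC
    simp only [re_el, im_el]
    rw [hc, re_mul, re_el, im_el, ← hNdef]
    have h1 : ((re c) ^ p * re r + (im c) ^ p * f ^ N * im r * f) * f ^ N
        = (re c) ^ p * (re r * f ^ N) + (im c * f) ^ p * im r := by
      have h0 : f ^ p = f ^ (2 * N + 1) := by rw [hN]
      rw [mul_pow, h0]
      ring
    rw [h1, cart_add, cart_pow_mul, cart_pow_mul]
    ring
  · rw [im_mul]
    unfold CC
    simp only [re_el, im_el]
    rw [hc, im_mul, re_el, im_el, ← hNdef]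
    have h1 : (re c) ^ p * im r + (im c) ^ p * f ^ N * re r
        = (re c) ^ p * im r + (im c) ^ p * (re r * f ^ N) := by ring
    rw [h1, cart_add, cart_pow_mul, cart_pow_mul]

lemma cart_two_mul (F : k[X]) : cart p (2 * F) = 2 * cart p F := by
  rw [two_mul, cart_add, two_mul]

lemma el_pow_re (f a : k[X]) (n : ℕ) : (el f a 0) ^ n = el f (a ^ n) 0 := by
  induction n with
  | zero => simp [el_one]
  | succ n ih => rw [pow_succ, ih, el_mul, pow_succ]; simp

lemma el_pow_im (f b : k[X]) (n : ℕ) : (el f 0 b) ^ (2 * n) = el f (b ^ (2 * n) * f ^ n) 0 := by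
  induction n with
  | zero => simp [el_one]
  | succ n ih =>
    rw [mul_add, pow_add, ih, mul_one, pow_two (el f 0 b), el_mul, el_mul]
    congr 1
    · ring
    · ring

lemma CC_log (hp2 : 2 < p) (f : k[X]) (φ : CoordRing f) :
    CC p f (φ ^ (p - 1) * dd f φ) = dd f φ := by
  have hN := two_mul_half p hp2
  have hp1 : 1 ≤ p := by omega
  obtain ⟨P, hP⟩ := exists_primitive (dd f) (dd_leibniz f) p Fact.out
    (el f (re φ) 0) (el f 0 (im φ))
  have hφ : el f (re φ) 0 + el f 0 (im φ) = φ := by
    rw [el_add, add_zero, zero_add, el_re_im]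
  rw [hφ] at hP
  have hA : CC p f ((el f (re φ) 0) ^ (p - 1) * dd f (el f (re φ) 0))
      = dd f (el f (re φ) 0) := by
    rw [dd_apply, re_el, im_el, el_pow_re, el_mul]
    unfold CC
    rw [re_el, im_el]
    simp only [derivative_zero, mul_zero, zero_mul, add_zero, cart_zero]
    congr 1
    have h1 : (re φ) ^ (p - 1) * (2 * derivative (re φ))
        = 2 * ((re φ) ^ (p - 1) * derivative (re φ)) := by ring
    rw [h1, cart_two_mul, cart_pow_mul_derivative]
  have hB : CC p f ((el f 0 (im φ)) ^ (p - 1) * dd f (el f 0 (im φ)))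
      = dd f (el f 0 (im φ)) := by
    set N := (p - 1) / 2 with hNdef
    have hp' : p - 1 = 2 * N := by omega
    rw [dd_apply, re_el, im_el, hp', el_pow_im, el_mul]
    unfold CC
    rw [re_el, im_el]
    simp only [derivative_zero, mul_zero, zero_mul, add_zero, cart_zero]
    congr 1
    have h1 : (im φ) ^ (2 * N) * f ^ N * (2 * derivative (im φ) * f + im φ * derivative f)
          * f ^ ((p - 1) / 2)
        = f ^ p * (2 * ((im φ) ^ (p - 1) * derivative (im φ)))
          + (im φ) ^ p * (f ^ (p - 1) * derivative f) := by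
      have h0 : f ^ p = f ^ (2 * N + 1) := by rw [hN]
      have h2 : (im φ) ^ p = (im φ) ^ (2 * N + 1) := by rw [hN]
      rw [← hNdef, hp', h0, h2]
      ring
    rw [h1, cart_add, cart_pow_mul, cart_pow_mul, cart_two_mul, cart_pow_mul_derivative,
      cart_pow_mul_derivative]
    ring
  rw [hP, CC_add, CC_add, hA, hB, CC_dd p hp2, add_zero, ← map_add, hφ]

/-- logarithmic differentials are fixed by the Cartier operator -/
lemma CC_fixed (hp2 : 2 < p) (f : k[X]) [IsDomain (CoordRing f)] (φ r : CoordRing f) (hφ : φ ≠ 0)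
    (h : dd f φ = r * φ) : CC p f r = r := by
  have hp1 : 1 ≤ p := by omega
  have h1 := CC_log p hp2 f φ
  have h2 : φ ^ (p - 1) * dd f φ = φ ^ p * r := by
    rw [h]
    obtain ⟨q, hq⟩ : ∃ q, p = q + 1 := ⟨p - 1, (Nat.sub_add_cancel hp1).symm⟩
    rw [hq]
    simp only [Nat.add_sub_cancel]
    ring
  rw [h2, CC_pow_mul p hp2, h, mul_comm r φ] at h1
  exact mul_left_cancel₀ hφ h1

end

section

variable {k : Type*} [Field k] (p : ℕ) [Fact p.Prime] [CharP k p] [PerfectRing k p]

lemma fixed_zero (B : k[X]) (h : cart p B = B) : B = 0 := by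
  by_contra hB
  have hp2 : 2 ≤ p := (Fact.out : p.Prime).two_le
  have h1 : B.coeff B.natDegree = 0 := by
    conv_lhs => rw [← h]
    rw [coeff_cart, coeff_eq_zero_of_natDegree_lt, map_zero]
    · have : B.natDegree ≤ B.natDegree * p := Nat.le_mul_of_pos_right _ (by omega)
      have h2 : B.natDegree + (p - 1) ≤ B.natDegree * p + (p - 1) := by omega
      rw [h]
      omega
  exact hB (leadingCoeff_eq_zero.1 h1)

lemma fixed_degree (hp2 : 2 < p) (f A : k[X]) (g : ℕ) (hf : f.natDegree = 2 * g + 1)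
    (h : cart p (A * f ^ ((p - 1) / 2)) = A) : A.degree < g := by
  have hN := two_mul_half p hp2
  set N := (p - 1) / 2 with hNdef
  rw [degree_lt_iff_coeff_zero]
  by_contra hcon
  push Not at hcon
  obtain ⟨m, hm, hm0⟩ := hcon
  have hA : A ≠ 0 := by rintro rfl; simp at hm0
  have h0 : g ≤ A.natDegree := le_trans hm (le_natDegree_of_ne_zero hm0)
  have h1 : A.coeff A.natDegree = 0 := by
    have h5 : (cart p (A * f ^ N)).coeff A.natDegree = A.coeff A.natDegree := by rw [h]
    rw [← h5, coeff_cart, coeff_eq_zero_of_natDegree_lt, map_zero]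
    have h3 : (A * f ^ N).natDegree ≤ A.natDegree + N * (2 * g + 1) := by
      refine le_trans natDegree_mul_le ?_
      have := natDegree_pow_le (p := f) (n := N)
      rw [hf] at this
      omega
    refine lt_of_le_of_lt h3 ?_
    have hp' : p - 1 = 2 * N := by omega
    rw [hp', ← hN]
    have hNpos : 1 ≤ N := by omega
    nlinarith [Nat.mul_le_mul_left (2 * N) h0]
  exact hA (leadingCoeff_eq_zero.1 h1)

lemma fixed_spec (hp2 : 2 < p) (f : k[X]) (g : ℕ) (hf : f.natDegree = 2 * g + 1)
    (r : CoordRing f) (h : CC p f r = r) :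
    im r = 0 ∧ (re r).degree < g ∧ cart p (re r * f ^ ((p - 1) / 2)) = re r := by
  have h1 : cart p (re r * f ^ ((p - 1) / 2)) = re r := by
    have := congrArg re h
    unfold CC at this
    rwa [re_el] at this
  have h2 : cart p (im r) = im r := by
    have := congrArg im h
    unfold CC at this
    rwa [im_el] at this
  exact ⟨fixed_zero p _ h2, fixed_degree p hp2 f _ g hf h1, h1⟩

lemma exists_pow_eq (F : k[X]) (h : derivative F = 0) : ∃ G : k[X], G ^ p = F := by
  have hp : p ≠ 0 := (Fact.out : p.Prime).ne_zero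
  refine ⟨(contract p F).map ((frobeniusEquiv k p).symm : k →+* k), ?_⟩
  rw [pow_eq_expand, Polynomial.map_map]
  have h5 : ((frobenius k p).comp ((frobeniusEquiv k p).symm : k →+* k)) = RingHom.id k := by
    ext x; simp
  rw [h5, Polynomial.map_id, expand_contract p h hp]

lemma exists_pow_eq_of_dd (hp2 : 2 < p) (f : k[X]) (ψ : CoordRing f) (h : dd f ψ = 0) :
    ∃ χ : CoordRing f, χ ^ p = (el f f 0) ^ p * ψ := by
  have hN := two_mul_half p hp2
  have hre : 2 * derivative (im ψ) * f + im ψ * derivative f = 0 := by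
    have := congrArg re h
    rwa [dd_apply, re_el, re_zero] at this
  have him : 2 * derivative (re ψ) = 0 := by
    have := congrArg im h
    rwa [dd_apply, im_el, im_zero] at this
  set N := (p - 1) / 2 with hNdef
  have h2 : (2 : k[X]) ≠ 0 := by
    intro h0
    have h1 : ((2 : ℕ) : k[X]) = 0 := by simpa using h0
    rw [CharP.cast_eq_zero_iff k[X] p] at h1
    exact absurd (Nat.le_of_dvd (by norm_num) h1) (by omega)
  have hc : (2 * ((N : k[X]) + 1)) = 1 := by
    have h1 : ((p : ℕ) : k[X]) = 0 := CharP.cast_eq_zero k[X] p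
    rw [← hN] at h1
    push_cast at h1
    linear_combination h1
  obtain ⟨α, hα⟩ := exists_pow_eq p (re ψ) (by
    rcases mul_eq_zero.1 him with h0 | h0
    · exact absurd h0 h2
    · exact h0)
  obtain ⟨γ, hγ⟩ := exists_pow_eq p (im ψ * f ^ (N + 1)) (by
    have h3 : 2 * derivative (im ψ * f ^ (N + 1)) = 0 := by
      rw [derivative_mul, derivative_pow]
      simp only [Nat.add_sub_cancel, Nat.cast_add, Nat.cast_one, map_add, map_natCast, map_one]
      linear_combination (f ^ N) * hre + (im ψ * f ^ N * derivative f) * hc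
    rcases mul_eq_zero.1 h3 with h0 | h0
    · exact absurd h0 h2
    · exact h0)
  refine ⟨el f (f * α) γ, ?_⟩
  rw [el_pow p f _ _ hp2, el_pow p f _ _ hp2]
  conv_rhs => rw [← el_re_im ψ]
  rw [el_mul, hγ, mul_pow, hα, ← hNdef]
  have hp0 : p ≠ 0 := by omega
  have h0 : f ^ p = f ^ (2 * N + 1) := by rw [hN]
  rw [zero_pow hp0, h0]
  congr 1
  · ring
  · ring

end

section

variable {k : Type*} [Field k]

lemma isDomain_coordRing (f : k[X]) (hf : Squarefree f) (hd : 0 < f.natDegree) :
    IsDomain (CoordRing f) := by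
  apply AdjoinRoot.isDomain_of_prime
  apply Irreducible.prime
  rw [(monic_g f).irreducible_iff_roots_eq_zero_of_degree_le_three]
  · rw [Multiset.eq_zero_iff_forall_notMem]
    intro c hc
    rw [mem_roots (monic_g f).ne_zero, IsRoot.def] at hc
    simp only [eval_sub, eval_pow, eval_X, eval_C] at hc
    have h1 : c * c ∣ f := ⟨1, by linear_combination -hc⟩
    have h2 := hf c h1
    have h3 : IsUnit f := by
      have : f = c * c := by linear_combination -hc
      rw [this]; exact h2.mul h2
    have := natDegree_eq_zero_of_isUnit h3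
    omega
  · rw [natDegree_X_pow_sub_C]
  · rw [natDegree_X_pow_sub_C]; norm_num

lemma int_dvd {A L : Type*} [CommRing A] [IsDomain A] [IsIntegrallyClosed A] [Field L]
    [Algebra A L] (hinj : Function.Injective (algebraMap A L)) (a n : A) (hn : n ≠ 0) (z : L)
    (hz : algebraMap A L n * z = algebraMap A L a) (hi : IsIntegral A z) : n ∣ a := by
  let φ : FractionRing A →+* L := IsFractionRing.lift hinj
  have hφ : ∀ x : A, φ (algebraMap A (FractionRing A) x) = algebraMap A L x := fun x =>
    IsFractionRing.lift_algebraMap hinj x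
  have hn' : algebraMap A (FractionRing A) n ≠ 0 := by
    intro h
    exact hn ((IsFractionRing.injective A (FractionRing A)) (by rw [h, map_zero]))
  have hnL : algebraMap A L n ≠ 0 := by
    intro h; exact hn (hinj (by rw [h, map_zero]))
  set w : FractionRing A := algebraMap A (FractionRing A) a / algebraMap A (FractionRing A) n
    with hw
  have hwz : φ w = z := by
    rw [hw, map_div₀, hφ, hφ, ← hz]
    field_simp
  have hwi : IsIntegral A w := by
    obtain ⟨P, hP, hP0⟩ := hi
    refine ⟨P, hP, ?_⟩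
    apply φ.injective
    rw [map_zero, hom_eval₂, hwz]
    have : φ.comp (algebraMap A (FractionRing A)) = algebraMap A L := RingHom.ext hφ
    rw [this, hP0]
  obtain ⟨c, hc⟩ := IsIntegrallyClosed.isIntegral_iff.1 hwi
  refine ⟨c, ?_⟩
  apply IsFractionRing.injective A (FractionRing A)
  rw [map_mul, hc, hw]
  field_simp

/-- the hyperelliptic involution `y ↦ -y` -/
noncomputable def conj (f : k[X]) : CoordRing f ≃+* CoordRing f where
  toFun r := el f (re r) (-im r)
  invFun r := el f (re r) (-im r)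
  left_inv r := by
    apply ext_el <;> simp
  right_inv r := by
    apply ext_el <;> simp
  map_mul' r s := by
    apply ext_el
    · simp only [re_mul, im_mul, re_el, im_el]; ring
    · simp only [re_mul, im_mul, re_el, im_el]; ring
  map_add' r s := by
    apply ext_el
    · simp only [re_add, im_add, re_el, im_el]
    · simp only [re_add, im_add, re_el, im_el]; ring

lemma conj_apply (f : k[X]) (r : CoordRing f) : conj f r = el f (re r) (-im r) := rfl

lemma of_eq_el (f a : k[X]) : AdjoinRoot.of (X ^ 2 - C f : k[X][X]) a = el f a 0 := by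
  simp [el]

lemma conj_of (f a : k[X]) : conj f (AdjoinRoot.of (X ^ 2 - C f : k[X][X]) a)
    = AdjoinRoot.of (X ^ 2 - C f : k[X][X]) a := by
  rw [of_eq_el, conj_apply]; simp

lemma squarefree_dvd (f b n : k[X]) (hf : Squarefree f) (hn : n ≠ 0) (h : n ^ 2 ∣ b ^ 2 * f) :
    n ∣ b := by
  obtain ⟨n', b', c, hrel, hn', hb'⟩ := UniqueFactorizationMonoid.exists_reduced_factors n hn b
  have hc : c ≠ 0 := by rintro rfl; rw [zero_mul] at hn'; exact hn hn'.symm
  rw [← hn', ← hb', mul_pow, mul_pow, mul_assoc, mul_dvd_mul_iff_left (pow_ne_zero 2 hc)] at h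
  have h1 : n' ^ 2 ∣ f := (hrel.pow (m := 2) (n := 2)).dvd_of_dvd_mul_left h
  have h2 : IsUnit n' := hf n' (by rwa [← pow_two])
  rw [← hn', ← hb']
  exact mul_dvd_mul_left c h2.dvd

lemma isIntegrallyClosed_aux (f : k[X]) (hf : Squarefree f)
    (h2 : (2 : k) ≠ 0) [IsDomain (CoordRing f)] (L : Type*) [Field L] [Algebra (CoordRing f) L]
    [IsFractionRing (CoordRing f) L] [Algebra k[X] L] [IsScalarTower k[X] (CoordRing f) L]
    (x : L) (hx : IsIntegral (CoordRing f) x) : ∃ y, algebraMap (CoordRing f) L y = x := by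
  have hfin : Module.Finite k[X] (CoordRing f) := (monic_g f).finite_adjoinRoot
  have hint : Algebra.IsIntegral k[X] (CoordRing f) := inferInstance
  have hxA : IsIntegral k[X] x := isIntegral_trans x hx
  have hinjRL : Function.Injective (algebraMap (CoordRing f) L) :=
    IsFractionRing.injective (CoordRing f) L
  have hel : ∀ a : k[X], algebraMap k[X] (CoordRing f) a = el f a 0 := fun a => of_eq_el f a
  have hinjAR : Function.Injective (algebraMap k[X] (CoordRing f)) := of_injective f
  have htower : ∀ a : k[X], algebraMap k[X] L a = algebraMap (CoordRing f) L (el f a 0) :=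
    fun a => by rw [IsScalarTower.algebraMap_apply k[X] (CoordRing f) L a, hel]
  have hinjAL : Function.Injective (algebraMap k[X] L) := by
    intro a b hab
    rw [htower, htower] at hab
    exact (el_inj (hinjRL hab)).1
  -- clear denominators
  obtain ⟨r, s, hs, hrs⟩ := IsFractionRing.div_surjective (A := CoordRing f) x
  have hs0 : s ≠ 0 := nonZeroDivisors.ne_zero hs
  obtain ⟨n, hn⟩ : ∃ n, n = re (s * conj f s) := ⟨_, rfl⟩
  have hsn : s * conj f s = el f n 0 := by
    have : im (s * conj f s) = 0 := by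
      rw [im_mul, conj_apply, re_el, im_el]; ring
    rw [← el_re_im (s * conj f s), this, ← hn]
  have hcs0 : conj f s ≠ 0 := by
    intro h; exact hs0 ((conj f).injective (by rw [h, map_zero]))
  have hn0 : n ≠ 0 := by
    intro h
    rw [h, el_zero] at hsn
    rcases mul_eq_zero.1 hsn with h | h
    · exact hs0 h
    · exact hcs0 h
  obtain ⟨t, ht⟩ : ∃ t, t = r * conj f s := ⟨_, rfl⟩
  have hxt : algebraMap k[X] L n * x = algebraMap (CoordRing f) L t := by
    have h1 : algebraMap (CoordRing f) L s ≠ 0 := by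
      intro h; exact hs0 (hinjRL (by rw [h, map_zero]))
    rw [htower, ← hsn, ht, map_mul, map_mul, ← hrs]
    field_simp
  -- the involution on the fraction field
  let σ : L ≃+* L := IsFractionRing.ringEquivOfRingEquiv (conj f)
  have hσ : ∀ a : CoordRing f, σ (algebraMap (CoordRing f) L a)
      = algebraMap (CoordRing f) L (conj f a) := fun a =>
    IsFractionRing.ringEquivOfRingEquiv_algebraMap (conj f) a
  have hσA : ∀ a : k[X], σ (algebraMap k[X] L a) = algebraMap k[X] L a := by
    intro a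
    rw [htower, hσ, conj_apply, re_el, im_el, neg_zero]
  have hσx : IsIntegral k[X] (σ x) := by
    obtain ⟨P, hP, hP0⟩ := hxA
    refine ⟨P, hP, ?_⟩
    have h1 : (σ : L →+* L).comp (algebraMap k[X] L) = algebraMap k[X] L :=
      RingHom.ext hσA
    have h2 := congrArg (σ : L →+* L) hP0
    rw [hom_eval₂, h1, map_zero] at h2
    exact h2
  have hxσ : algebraMap k[X] L n * σ x = algebraMap (CoordRing f) L (conj f t) := by
    have := congrArg σ hxt
    rw [map_mul, hσA, hσ] at this
    exact this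
  -- trace
  have htr : n ∣ re t + re t := by
    apply int_dvd hinjAL _ _ hn0 (x + σ x) _ (hxA.add hσx)
    rw [mul_add, hxt, hxσ, ← map_add, htower]
    congr 1
    rw [conj_apply]
    apply ext_el
    · simp only [re_add, re_el]
    · simp only [im_add, im_el]; ring
  have hdis : n ^ 2 ∣ (im t + im t) ^ 2 * f := by
    apply int_dvd hinjAL _ _ (pow_ne_zero 2 hn0) ((x - σ x) ^ 2) _ ((hxA.sub hσx).pow 2)
    rw [map_pow, ← mul_pow, mul_sub, hxt, hxσ, ← map_sub, ← map_pow, htower]
    congr 1
    have h1 : t - conj f t = el f 0 (im t + im t) := by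
      rw [sub_eq_iff_eq_add, conj_apply, el_add]
      conv_lhs => rw [← el_re_im t]
      congr 1
      · ring
      · ring
    rw [h1, pow_two, el_mul]
    congr 1
    · ring
    · ring
  have hdvd2 : ∀ a : k[X], n ∣ a + a → n ∣ a := by
    intro a ha
    have : a = C (2⁻¹) * (a + a) := by
      have h3 : (C (2⁻¹ : k)) * 2 = 1 := by
        rw [show (2 : k[X]) = C 2 from (C_ofNat 2).symm, ← C_mul, inv_mul_cancel₀ h2, C_1]
      linear_combination (-a) * h3
    rw [this]
    exact ha.mul_left _
  obtain ⟨a, ha⟩ := hdvd2 _ htr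
  obtain ⟨b, hb⟩ := hdvd2 _ (squarefree_dvd f _ n hf hn0 hdis)
  refine ⟨el f a b, ?_⟩
  have hnL : algebraMap k[X] L n ≠ 0 := by
    intro h; exact hn0 (hinjAL (by rw [h, map_zero]))
  apply mul_left_cancel₀ hnL
  rw [hxt, htower, ← map_mul]
  congr 1
  conv_rhs => rw [← el_re_im t, ha, hb]
  rw [el_mul]
  congr 1
  · ring
  · ring

lemma isDedekindDomain_coordRing (f : k[X]) (hf : Squarefree f) (hd : 0 < f.natDegree)
    (h2 : (2 : k) ≠ 0) : IsDedekindDomain (CoordRing f) := by
  haveI := isDomain_coordRing f hf hd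
  have hfin : Module.Finite k[X] (CoordRing f) := (monic_g f).finite_adjoinRoot
  rw [isDedekindDomain_iff (CoordRing f) (FractionRing (CoordRing f))]
  refine ⟨inferInstance, IsNoetherianRing.of_finite k[X] _, Ring.DimensionLEOne.of_isIntegral k[X] _,
    fun {x} hx => isIntegrallyClosed_aux f hf h2 _ x hx⟩

end

section

variable {R : Type*} [CommRing R] [IsDedekindDomain R]

lemma sup_pow_eq (I J : Ideal R) (n : ℕ) : (I ⊔ J) ^ n = I ^ n ⊔ J ^ n := by
  rcases eq_or_ne (I ⊔ J) ⊥ with h | h
  · have hI : I = ⊥ := le_bot_iff.1 (h ▸ le_sup_left)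
    have hJ : J = ⊥ := le_bot_iff.1 (h ▸ le_sup_right)
    rw [hI, hJ]; simp
  · obtain ⟨I', hI'⟩ := Ideal.dvd_iff_le.2 (le_sup_left : I ≤ I ⊔ J)
    obtain ⟨J', hJ'⟩ := Ideal.dvd_iff_le.2 (le_sup_right : J ≤ I ⊔ J)
    have h1 : I' ⊔ J' = ⊤ := by
      have h2 : (I ⊔ J) * (I' ⊔ J') = (I ⊔ J) * ⊤ := by
        rw [Ideal.mul_sup, ← hI', ← hJ', Ideal.mul_top]
      exact mul_left_cancel₀ (by rwa [← Ideal.zero_eq_bot] at h) h2
    have h3 : I' ^ n ⊔ J' ^ n = ⊤ := Ideal.pow_sup_pow_eq_top h1
    have h4 : I ^ n = (I ⊔ J) ^ n * I' ^ n := by rw [← mul_pow, ← hI']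
    have h5 : J ^ n = (I ⊔ J) ^ n * J' ^ n := by rw [← mul_pow, ← hJ']
    rw [h4, h5, ← Ideal.mul_sup, h3, Ideal.mul_top]

lemma pow_le_span (I : Ideal R) (n : ℕ) : I ^ n ≤ Ideal.span ((fun a => a ^ n) '' (I : Set R)) := by
  have hfg : I.FG := IsNoetherian.noetherian I
  induction I, hfg using Submodule.fg_induction with
  | singleton x =>
    have : (Submodule.span R {x} : Ideal R) = Ideal.span {x} := rfl
    rw [this, Ideal.span_singleton_pow, Ideal.span_le, Set.singleton_subset_iff]
    exact Ideal.subset_span ⟨x, Ideal.mem_span_singleton_self x, rfl⟩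
  | sup I J hI hJ hI' hJ' =>
    rw [sup_pow_eq]
    refine sup_le (hI'.trans (Ideal.span_mono ?_)) (hJ'.trans (Ideal.span_mono ?_))
    · exact Set.image_mono (le_sup_left : I ≤ I ⊔ J)
    · exact Set.image_mono (le_sup_right : J ≤ I ⊔ J)

/-- If `I ^ p = (φ)` and `D` is a derivation killing `p`-th powers then `φ ∣ D φ`. -/
lemma dvd_deriv (D : R →+ R) (hD : ∀ a b, D (a * b) = a * D b + b * D a) (p : ℕ)
    (hp : ∀ a, D (a ^ p) = 0) (I : Ideal R) (φ : R) (h : I ^ p = Ideal.span {φ}) : φ ∣ D φ := by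
  rw [← Ideal.mem_span_singleton, ← h]
  have h1 : ∀ x ∈ Ideal.span ((fun a => a ^ p) '' (I : Set R)), D x ∈ I ^ p := by
    intro x hx
    induction hx using Submodule.span_induction with
    | mem x hx =>
      obtain ⟨a, ha, rfl⟩ := hx
      simp only [hp]
      exact Ideal.zero_mem _
    | zero => rw [map_zero]; exact Ideal.zero_mem _
    | add x y _ _ hx hy => rw [map_add]; exact Ideal.add_mem _ hx hy
    | smul a x hx' hx =>
      rw [smul_eq_mul, hD]
      refine Ideal.add_mem _ (Ideal.mul_mem_left _ _ hx) ?_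
      have h2 : x ∈ I ^ p := by
        refine (Ideal.span_le.2 ?_) hx'
        rintro _ ⟨b, hb, rfl⟩
        exact Ideal.pow_mem_pow hb p
      exact Ideal.mul_mem_right _ _ h2
  apply h1
  apply pow_le_span I p
  rw [h]
  exact Ideal.mem_span_singleton_self φ

/-- a `p`-th root of a principal `p`-th power ideal is principal -/
lemma eq_of_pow_eq (I J : Ideal R) (p : ℕ) (hp : p ≠ 0) (h : I ^ p = J ^ p) : I = J := by
  have h1 : I ∣ J := (UniqueFactorizationMonoid.pow_dvd_pow_iff_dvd hp).1 (by rw [h])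
  have h2 : J ∣ I := (UniqueFactorizationMonoid.pow_dvd_pow_iff_dvd hp).1 (by rw [h])
  exact le_antisymm (Ideal.dvd_iff_le.1 h2) (Ideal.dvd_iff_le.1 h1)

end

section

variable {k : Type*} [Field k] (p : ℕ) [Fact p.Prime] [CharP k p]

lemma finite_fixed : (({c : k | c ^ p = c}).Finite ∧ ({c : k | c ^ p = c}).ncard ≤ p) := by
  classical
  have hp : 1 < p := (Fact.out : p.Prime).one_lt
  have hne : (X ^ p - X : k[X]) ≠ 0 := FiniteField.X_pow_card_sub_X_ne_zero k hp
  have hsub : {c : k | c ^ p = c} ⊆ ((X ^ p - X : k[X]).roots.toFinset : Set k) := by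
    intro c hc
    simp only [Set.mem_setOf_eq] at hc
    simp only [Finset.mem_coe, Multiset.mem_toFinset]
    rw [mem_roots hne, IsRoot.def]
    simp [hc]
  refine ⟨(Finset.finite_toSet _).subset hsub, ?_⟩
  calc ({c : k | c ^ p = c}).ncard ≤ ((X ^ p - X : k[X]).roots.toFinset : Set k).ncard :=
        Set.ncard_le_ncard hsub (Finset.finite_toSet _)
    _ = (X ^ p - X : k[X]).roots.toFinset.card := Set.ncard_coe_finset _
    _ ≤ Multiset.card (X ^ p - X : k[X]).roots := Multiset.toFinset_card_le _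
    _ ≤ (X ^ p - X : k[X]).natDegree := card_roots' _
    _ = p := FiniteField.X_pow_card_sub_X_natDegree_eq k hp

variable [PerfectRing k p]

lemma cart_smul (F A : k[X]) (c : k) :
    cart p ((c • A) * F) = ((frobeniusEquiv k p).symm c) • cart p (A * F) := by
  have h1 : (c • A) * F = (C ((frobeniusEquiv k p).symm c)) ^ p * (A * F) := by
    rw [← C_pow, frobeniusEquiv_symm_pow_p, smul_eq_C_mul]; ring
  rw [h1, cart_pow_mul, smul_eq_C_mul]

/-- the set of fixed vectors of the Cartier operator -/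
def fixedSet (F : k[X]) (g : ℕ) : Set k[X] := {A | A.degree < g ∧ cart p (A * F) = A}

lemma card_fixedSet (F : k[X]) (g : ℕ) (hg : 1 ≤ g) (u : k[X]) (hu : u ≠ 0) (hud : u.degree < g)
    (hu0 : cart p (u * F) = 0) :
    (fixedSet p F g).Finite ∧ (fixedSet p F g).ncard ≤ p ^ (g - 1) := by
  classical
  obtain ⟨b, hbS, hspan, hli⟩ := exists_linearIndependent k (fixedSet p F g)
  have hSV : fixedSet p F g ⊆ (degreeLT k g : Set k[X]) := by
    intro A hA
    exact mem_degreeLT.2 hA.1
  have hV : Submodule.span k (fixedSet p F g) ≤ degreeLT k g := Submodule.span_le.2 hSV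
  haveI hfd : FiniteDimensional k (degreeLT k g) :=
    Module.Finite.equiv (degreeLTEquiv k g).symm
  have hfdim : Module.finrank k (degreeLT k g) = g := by
    rw [(degreeLTEquiv k g).finrank_eq, Module.finrank_fin_fun]
  haveI hfdS : FiniteDimensional k (Submodule.span k (fixedSet p F g)) :=
    Submodule.finiteDimensional_of_le hV
  haveI hbfin : Finite b := by
    have h1 : LinearIndependent k (fun x : b => (⟨(x : k[X]), hspan ▸ Submodule.subset_span x.2⟩ :
        Submodule.span k (fixedSet p F g))) := by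
      apply LinearIndependent.of_comp (Submodule.span k (fixedSet p F g)).subtype
      exact hli
    exact h1.finite
  haveI : Fintype b := Fintype.ofFinite b
  -- action of the operator on combinations
  have hT : ∀ c : b → k, cart p ((∑ i, c i • (i : k[X])) * F)
      = ∑ i, ((frobeniusEquiv k p).symm (c i)) • (i : k[X]) := by
    intro c
    rw [Finset.sum_mul, cart_sum]
    refine Finset.sum_congr rfl fun i _ => ?_
    rw [cart_smul, (hbS i.2).2]
  have hli' := Fintype.linearIndependent_iff.1 hli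
  have hrep : ∀ x ∈ Submodule.span k (fixedSet p F g), ∃ c : b → k, ∑ i, c i • (i : k[X]) = x := by
    intro x hx
    rw [← hspan] at hx
    have : b = Set.range (Subtype.val : b → k[X]) := Subtype.range_coe.symm
    rw [this] at hx
    exact (Submodule.mem_span_range_iff_exists_fun k).1 hx
  -- u is not in the span
  have hunot : u ∉ Submodule.span k (fixedSet p F g) := by
    intro hmem
    obtain ⟨c, hc⟩ := hrep u hmem
    have h1 := hT c
    rw [hc, hu0] at h1
    have h2 := hli' _ h1.symm
    apply hu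
    rw [← hc]
    apply Finset.sum_eq_zero
    intro i _
    have h3 := h2 i
    rw [map_eq_zero_iff _ (frobeniusEquiv k p).symm.injective] at h3
    rw [h3, zero_smul]
  have hlt : Submodule.span k (fixedSet p F g) < degreeLT k g := by
    refine lt_of_le_of_ne hV ?_
    intro h
    exact hunot (h ▸ mem_degreeLT.2 hud)
  have hrank : Fintype.card b ≤ g - 1 := by
    have h1 : Module.finrank k (Submodule.span k (fixedSet p F g)) < g := by
      calc Module.finrank k (Submodule.span k (fixedSet p F g)) < Module.finrank k (degreeLT k g) :=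
            Submodule.finrank_lt_finrank_of_lt hlt
        _ = g := hfdim
    have h2 : Module.finrank k (Submodule.span k (fixedSet p F g)) = Fintype.card b := by
      rw [← hspan]
      have := finrank_span_set_eq_card (R := k) hli
      rw [Set.toFinset_card] at this
      exact this
    omega
  -- the injection
  have hinj : ∃ Φ : fixedSet p F g → (b → {c : k | c ^ p = c}), Function.Injective Φ := by
    have hex : ∀ A : fixedSet p F g, ∃ c : b → {c : k | c ^ p = c},
        ∑ i, (c i : k) • (i : k[X]) = (A : k[X]) := by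
      intro A
      obtain ⟨c, hc⟩ := hrep A (Submodule.subset_span A.2)
      have h1 := hT c
      rw [hc, A.2.2] at h1
      have h2 : ∑ i : b, ((frobeniusEquiv k p).symm (c i) - c i) • (i : k[X]) = 0 := by
        simp only [sub_smul, Finset.sum_sub_distrib]
        rw [← h1, hc, sub_self]
      have h3 := hli' _ h2
      refine ⟨fun i => ⟨c i, ?_⟩, hc⟩
      have h4 := sub_eq_zero.1 (h3 i)
      simp only [Set.mem_setOf_eq]
      conv_lhs => rw [← h4, frobeniusEquiv_symm_pow_p]
    choose Φ hΦ using hex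
    refine ⟨Φ, fun A B hAB => Subtype.ext ?_⟩
    rw [← hΦ A, ← hΦ B, hAB]
  obtain ⟨Φ, hΦ⟩ := hinj
  obtain ⟨hf1, hf2⟩ := finite_fixed (k := k) p
  haveI : Finite {c : k | c ^ p = c} := hf1
  haveI : Finite (fixedSet p F g) := Finite.of_injective Φ hΦ
  refine ⟨Set.toFinite _, ?_⟩
  rw [← Nat.card_coe_set_eq]
  calc Nat.card (fixedSet p F g) ≤ Nat.card (b → {c : k | c ^ p = c}) :=
        Nat.card_le_card_of_injective Φ hΦ
    _ = (Nat.card {c : k | c ^ p = c}) ^ Fintype.card b := by
        rw [Nat.card_fun, Nat.card_eq_fintype_card (α := b)]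
    _ ≤ p ^ Fintype.card b := by
        gcongr
        rw [Nat.card_coe_set_eq]; exact hf2
    _ ≤ p ^ (g - 1) := Nat.pow_le_pow_right (Fact.out : p.Prime).pos hrank

end

section

variable {k : Type*} [Field k] (p : ℕ) [Fact p.Prime] [CharP k p]

lemma dd_pow_p (f : k[X]) (a : CoordRing f) : dd f (a ^ p) = 0 := by
  have := charP_coordRing p f
  rw [deriv_pow (dd f) (dd_leibniz f), CharP.cast_eq_zero, zero_mul, zero_mul]

variable [PerfectRing k p]

lemma exists_data (hp2 : 2 < p) (f : k[X]) [IsDedekindDomain (CoordRing f)] (g : ℕ)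
    (hfd : f.natDegree = 2 * g + 1) (c : ClassGroup (CoordRing f)) (hc : c ^ p = 1) :
    ∃ (I : (Ideal (CoordRing f))⁰) (φ : CoordRing f) (A : fixedSet p (f ^ ((p - 1) / 2)) g),
      ClassGroup.mk0 I = c ∧ φ ≠ 0 ∧ (I : Ideal (CoordRing f)) ^ p = Ideal.span {φ} ∧
      dd f φ = el f A 0 * φ := by
  obtain ⟨I, rfl⟩ := ClassGroup.mk0_surjective c
  have h1 : ((I : Ideal (CoordRing f)) ^ p).IsPrincipal := by
    rw [← map_pow] at hc
    exact (ClassGroup.mk0_eq_one_iff (I ^ p).2).1 hc
  obtain ⟨φ, hφ⟩ := h1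
  have hφ' : (I : Ideal (CoordRing f)) ^ p = Ideal.span {φ} := hφ
  have hI0 : (I : Ideal (CoordRing f)) ≠ ⊥ := nonZeroDivisors.ne_zero I.2
  have hφ0 : φ ≠ 0 := by
    rintro rfl
    rw [Ideal.span_singleton_zero, ← Ideal.zero_eq_bot] at hφ'
    exact hI0 (pow_eq_zero_iff (by omega) |>.1 hφ')
  obtain ⟨r, hr⟩ := dvd_deriv (dd f) (dd_leibniz f) p (dd_pow_p p f) I φ hφ'
  have hfix := CC_fixed p hp2 f φ r hφ0 (by rw [hr, mul_comm])
  obtain ⟨him, hdeg, hcart⟩ := fixed_spec p hp2 f g hfd r hfix
  refine ⟨I, φ, ⟨re r, hdeg, hcart⟩, rfl, hφ0, hφ', ?_⟩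
  rw [hr, mul_comm]
  congr 1
  conv_lhs => rw [← el_re_im r, him]

lemma class_eq (hp2 : 2 < p) (f : k[X]) [IsDedekindDomain (CoordRing f)] (hf0 : f ≠ 0)
    (c₁ c₂ : ClassGroup (CoordRing f)) (hc₂ : c₂ ^ p = 1)
    (I₁ I₂ : (Ideal (CoordRing f))⁰) (φ₁ φ₂ : CoordRing f) (A : k[X])
    (h₁ : ClassGroup.mk0 I₁ = c₁) (h₂ : ClassGroup.mk0 I₂ = c₂)
    (hφ₁ : φ₁ ≠ 0) (hφ₂ : φ₂ ≠ 0)
    (hI₁ : (I₁ : Ideal (CoordRing f)) ^ p = Ideal.span {φ₁})
    (hI₂ : (I₂ : Ideal (CoordRing f)) ^ p = Ideal.span {φ₂})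
    (hd₁ : dd f φ₁ = el f A 0 * φ₁) (hd₂ : dd f φ₂ = el f A 0 * φ₂) : c₁ = c₂ := by
  have hchar := charP_coordRing p f
  have hp1 : 1 ≤ p := by omega
  obtain ⟨q, rfl⟩ : ∃ q, p = q + 1 := ⟨p - 1, (Nat.sub_add_cancel hp1).symm⟩
  have hψ : dd f (φ₁ * φ₂ ^ q) = 0 := by
    rw [dd_leibniz, deriv_pow (dd f) (dd_leibniz f), hd₁, hd₂]
    have h0 : ((q + 1 : ℕ) : CoordRing f) = 0 := CharP.cast_eq_zero _ _
    push_cast at h0
    obtain ⟨m, rfl⟩ : ∃ m, q = m + 1 := ⟨q - 1, by omega⟩
    simp only [Nat.add_sub_cancel]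
    push_cast at h0 ⊢
    linear_combination (el f A 0 * φ₁ * φ₂ ^ (m + 1)) * h0
  obtain ⟨χ, hχ⟩ := exists_pow_eq_of_dd (q + 1) hp2 f _ hψ
  have hff : el f f 0 ≠ 0 := by
    intro h
    rw [← el_zero] at h
    exact hf0 (el_inj h).1
  have hideal : (Ideal.span {el f f 0} * ((I₁ : Ideal (CoordRing f)) * (I₂ : Ideal (CoordRing f)) ^ q))
      = Ideal.span {χ} := by
    apply eq_of_pow_eq _ _ (q + 1) (by omega)
    rw [Ideal.span_singleton_pow, hχ, mul_pow, mul_pow, hI₁, ← pow_mul, mul_comm q (q + 1), pow_mul,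
      hI₂, Ideal.span_singleton_pow, Ideal.span_singleton_pow,
      Ideal.span_singleton_mul_span_singleton, Ideal.span_singleton_mul_span_singleton]
  have hχ0 : χ ≠ 0 := by
    rintro rfl
    rw [zero_pow (by omega)] at hχ
    have : (el f f 0) ^ (q + 1) * (φ₁ * φ₂ ^ q) ≠ 0 :=
      mul_ne_zero (pow_ne_zero _ hff) (mul_ne_zero hφ₁ (pow_ne_zero _ hφ₂))
    exact this hχ.symm
  have hone : ClassGroup.mk0 (I₁ * I₂ ^ q) = 1 := by
    rw [← map_one (ClassGroup.mk0 (R := CoordRing f))]
    rw [ClassGroup.mk0_eq_mk0_iff]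
    refine ⟨el f f 0, χ, hff, hχ0, ?_⟩
    rw [Submonoid.coe_mul, SubmonoidClass.coe_pow, hideal]
    simp
  rw [map_mul, map_pow, h₁, h₂] at hone
  have h3 : c₁ * c₂ ^ q = c₂ * c₂ ^ q := by
    rw [hone, ← pow_succ', hc₂]
  exact mul_right_cancel h3

theorem card_torsion_le (hp2 : 2 < p) (f : k[X]) (hsq : Squarefree f) (g : ℕ) (hg : 1 ≤ g)
    (hfd : f.natDegree = 2 * g + 1) (u : k[X]) (hu : u ≠ 0) (hud : u.degree < g)
    (hu0 : cart p (u * f ^ ((p - 1) / 2)) = 0) :
    {c : CommRing.Pic (CoordRing f) | c ^ p = 1}.Finite ∧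
    {c : CommRing.Pic (CoordRing f) | c ^ p = 1}.ncard ≤ p ^ (g - 1) := by
  have hdeg : 0 < f.natDegree := by omega
  have h2 : (2 : k) ≠ 0 := by
    intro h0
    have h1 : ((2 : ℕ) : k) = 0 := by simpa using h0
    rw [CharP.cast_eq_zero_iff k p] at h1
    exact absurd (Nat.le_of_dvd (by norm_num) h1) (by omega)
  have hdom := isDomain_coordRing f hsq hdeg
  have hded := isDedekindDomain_coordRing f hsq hdeg h2
  obtain ⟨hfin, hcard⟩ := card_fixedSet p (f ^ ((p - 1) / 2)) g hg u hu hud hu0
  have hf0 : f ≠ 0 := hsq.ne_zero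
  have hex : ∀ c : {c : CommRing.Pic (CoordRing f) | c ^ p = 1},
      ∃ (I : (Ideal (CoordRing f))⁰) (φ : CoordRing f) (A : fixedSet p (f ^ ((p - 1) / 2)) g),
      ClassGroup.mk0 I = (ClassGroup.equivPic (CoordRing f)).symm c ∧ φ ≠ 0 ∧
      (I : Ideal (CoordRing f)) ^ p = Ideal.span {φ} ∧ dd f φ = el f A 0 * φ := by
    intro c
    apply exists_data p hp2 f g hfd
    rw [← map_pow]
    have := c.2
    simp only [Set.mem_setOf_eq] at this
    rw [this, map_one]
  choose I φ A h1 h2 h3 h4 using hex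
  have hinj : Function.Injective A := by
    intro c₁ c₂ h
    apply Subtype.ext
    apply (ClassGroup.equivPic (CoordRing f)).symm.injective
    have hc₂ := c₂.2
    simp only [Set.mem_setOf_eq] at hc₂
    refine class_eq p hp2 f hf0 _ _ (by rw [← map_pow, hc₂, map_one]) (I c₁) (I c₂) (φ c₁) (φ c₂)
      (A c₁) (h1 c₁) (h1 c₂) (h2 c₁) (h2 c₂) (h3 c₁) (h3 c₂) (h4 c₁) ?_
    rw [h]; exact h4 c₂
  have : Finite (fixedSet p (f ^ ((p - 1) / 2)) g) := hfin
  have hfinite : Finite {c : CommRing.Pic (CoordRing f) | c ^ p = 1} := Finite.of_injective A hinj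
  refine ⟨Set.toFinite _, ?_⟩
  rw [← Nat.card_coe_set_eq]
  calc _ ≤ Nat.card (fixedSet p (f ^ ((p - 1) / 2)) g) := Nat.card_le_card_of_injective A hinj
    _ ≤ _ := by rw [Nat.card_coe_set_eq]; exact hcard

end

section

variable {k : Type*} [Field k] (p : ℕ) [Fact p.Prime] [CharP k p] [PerfectRing k p]

lemma cart_C_mul_X_pow (c : k) (e : ℕ) (he : ¬ p ∣ e + 1) : cart p (C c * X ^ e) = 0 := by
  ext n
  rw [coeff_cart, coeff_C_mul_X_pow, coeff_zero]
  have hp1 : 1 ≤ p := (Fact.out : p.Prime).one_le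
  rw [if_neg, map_zero]
  intro h
  apply he
  rw [← h]
  refine ⟨n + 1, ?_⟩
  rw [mul_add, mul_one, mul_comm p n]; omega

lemma half_lt (hp2 : 2 < p) : (p - 1) / 2 < p := by omega

/-- case `p ∣ g` -/
lemma family_b (hp2 : 2 < p) (g : ℕ) (hg : 1 ≤ g) (hpg : p ∣ g) :
    cart p ((X ^ (2 * g) + X : k[X]) ^ ((p - 1) / 2)) = 0 := by
  have hN := two_mul_half p hp2
  set N := (p - 1) / 2 with hNdef
  obtain ⟨t, rfl⟩ := hpg
  rw [add_pow, cart_sum]
  apply Finset.sum_eq_zero
  intro i hi
  have hi' : i ≤ N := by have := Finset.mem_range.1 hi; omega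
  have h1 : ((X : k[X]) ^ (2 * (p * t))) ^ i * X ^ (N - i) * ((N.choose i : ℕ) : k[X])
      = C ((N.choose i : ℕ) : k) * X ^ (2 * (p * t) * i + (N - i)) := by
    rw [← pow_mul, ← pow_add, mul_comm]; simp
  rw [h1]
  apply cart_C_mul_X_pow
  intro hdvd
  have h2 : 2 * (p * t) * i + (N - i) + 1 = p * (2 * t * i) + (N - i + 1) := by ring
  rw [h2, Nat.dvd_add_right (dvd_mul_right _ _)] at hdvd
  have := Nat.le_of_dvd (by omega) hdvd
  omega

/-- case `g ≡ 1 (mod p)` -/
lemma family_c (hp2 : 2 < p) (t : ℕ) :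
    cart p (X * (X ^ (2 * (p * t + 1)) + 1 : k[X]) ^ ((p - 1) / 2)) = 0 := by
  have hN := two_mul_half p hp2
  set N := (p - 1) / 2 with hNdef
  rw [add_pow, Finset.mul_sum, cart_sum]
  apply Finset.sum_eq_zero
  intro i hi
  have hi' : i ≤ N := by have := Finset.mem_range.1 hi; omega
  have h1 : (X : k[X]) * (((X : k[X]) ^ (2 * (p * t + 1))) ^ i * 1 ^ (N - i)
      * ((N.choose i : ℕ) : k[X]))
      = C ((N.choose i : ℕ) : k) * X ^ (2 * (p * t + 1) * i + 1) := by
    rw [← pow_mul, pow_succ]; simp; ring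
  rw [h1]
  apply cart_C_mul_X_pow
  intro hdvd
  have h2 : 2 * (p * t + 1) * i + 1 + 1 = p * (2 * t * i) + (2 * i + 2) := by ring
  rw [h2, Nat.dvd_add_right (dvd_mul_right _ _)] at hdvd
  obtain ⟨s, hs⟩ := hdvd
  rcases s with _ | _ | s
  · omega
  · omega
  · have : p * (s + 1 + 1) = p * s + 2 * p := by ring
    have h5 : 0 ≤ p * s := Nat.zero_le _
    omega

lemma choose_ne_zero_of_lt (n m : ℕ) (hn : n < p) (hm : m ≤ n) : ((n.choose m : ℕ) : k) ≠ 0 := by
  intro h
  rw [CharP.cast_eq_zero_iff k p] at h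
  have h1 := (Nat.Prime.dvd_factorial (Fact.out : p.Prime)).1
    (dvd_trans (dvd_trans h (dvd_mul_right _ (m.factorial * (n - m).factorial)))
      (by rw [← mul_assoc, Nat.choose_mul_factorial_mul_factorial hm]))
  omega

/-- there is `a` with `a^2 ≠ 4` such that the coefficient of `T^i` in `(T^2+aT+1)^((p-1)/2)`
vanishes -/
lemma exists_root [IsAlgClosed k] (hp2 : 2 < p) (i : ℕ) (hi1 : 1 ≤ i) (hi2 : i + 2 ≤ p) :
    ∃ a : k, a ^ 2 ≠ 4 ∧ ((X ^ 2 + C a * X + 1 : k[X]) ^ ((p - 1) / 2)).coeff i = 0 := by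
  have hN := two_mul_half p hp2
  set N := (p - 1) / 2 with hNdef
  -- the coefficient as a polynomial in a
  set P : k[X] := ∑ m ∈ Finset.range (N + 1),
    C (((N.choose m : ℕ) : k) * (if m ≤ i then ((X ^ 2 + 1 : k[X]) ^ (N - m)).coeff (i - m) else 0))
      * X ^ m with hP
  have hPeval : ∀ a : k, P.eval a = ((X ^ 2 + C a * X + 1 : k[X]) ^ N).coeff i := by
    intro a
    have h1 : (X ^ 2 + C a * X + 1 : k[X]) ^ N = (C a * X + (X ^ 2 + 1)) ^ N := by
      congr 1; ring
    rw [h1, add_pow, finsetSum_coeff, hP, eval_finsetSum]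
    refine Finset.sum_congr rfl fun m _ => ?_
    have h2 : (C a * X : k[X]) ^ m * (X ^ 2 + 1) ^ (N - m) * ((N.choose m : ℕ) : k[X])
        = C (a ^ m * ((N.choose m : ℕ) : k)) * ((X ^ 2 + 1) ^ (N - m) * X ^ m) := by
      rw [mul_pow, C_mul, C_pow]; simp; ring
    rw [h2, coeff_C_mul, coeff_mul_X_pow']
    simp only [eval_mul, eval_C, eval_pow, eval_X]
    split_ifs <;> ring
  have hdeg : P.natDegree ≠ 0 := by
    intro h0
    obtain ⟨m, hm1, hm2, hm3⟩ : ∃ m, 1 ≤ m ∧ m ≤ N ∧ P.coeff m ≠ 0 := by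
      have hcoef : ∀ m, m ≤ N → m ≤ i → P.coeff m
          = ((N.choose m : ℕ) : k) * ((X ^ 2 + 1 : k[X]) ^ (N - m)).coeff (i - m) := by
        intro m hm hmi
        rw [hP, finsetSum_coeff, Finset.sum_eq_single m]
        · rw [coeff_C_mul_X_pow, if_pos rfl, if_pos hmi]
        · intro b _ hb
          rw [coeff_C_mul_X_pow, if_neg (Ne.symm hb)]
        · intro h; exact absurd (Finset.mem_range.2 (by omega)) h
      by_cases hiN : i ≤ N
      · refine ⟨i, hi1, hiN, ?_⟩
        rw [hcoef i hiN le_rfl, Nat.sub_self]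
        have : ((X ^ 2 + 1 : k[X]) ^ (N - i)).coeff 0 = 1 := by
          rw [coeff_zero_eq_eval_zero]; simp
        rw [this, mul_one]
        exact choose_ne_zero_of_lt p N i (by omega) hiN
      · refine ⟨2 * N - i, by omega, by omega, ?_⟩
        rw [hcoef _ (by omega) (by omega)]
        have h3 : i - (2 * N - i) = 2 * (N - (2 * N - i)) := by omega
        have : ((X ^ 2 + 1 : k[X]) ^ (N - (2 * N - i))).coeff (i - (2 * N - i)) = 1 := by
          rw [h3]
          have hmonic : (X ^ 2 + 1 : k[X]).Monic := by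
            have := monic_X_pow_add_C (1 : k) (two_ne_zero)
            simpa using this
          have hnd : ((X ^ 2 + 1 : k[X]) ^ (N - (2 * N - i))).natDegree
              = 2 * (N - (2 * N - i)) := by
            rw [hmonic.natDegree_pow]
            have : (X ^ 2 + 1 : k[X]).natDegree = 2 := by
              have := natDegree_X_pow_add_C (n := 2) (r := (1 : k))
              simpa using this
            rw [this]; ring
          rw [← hnd]
          exact (hmonic.pow _)
        rw [this, mul_one]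
        exact choose_ne_zero_of_lt p N _ (by omega) (by omega)
    apply hm3
    exact coeff_eq_zero_of_natDegree_lt (by omega)
  have hdeg' : P.degree ≠ 0 := by
    intro h; exact hdeg (natDegree_eq_of_degree_eq_some h)
  obtain ⟨a, ha⟩ := IsAlgClosed.exists_root P hdeg'
  rw [IsRoot.def, hPeval] at ha
  refine ⟨a, ?_, ha⟩
  intro h4
  have h5 : (a - 2) * (a + 2) = 0 := by linear_combination h4
  have hp' : 2 * N = p - 1 := by omega
  rcases mul_eq_zero.1 h5 with h | h
  · have ha2 : a = 2 := by linear_combination h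
    have h6 : (X ^ 2 + C a * X + 1 : k[X]) = (X + 1) ^ 2 := by
      rw [ha2, C_ofNat]; ring
    rw [h6, ← pow_mul, coeff_X_add_one_pow, hp'] at ha
    exact choose_ne_zero_of_lt p (p - 1) i (by omega) (by omega) ha
  · have ha2 : a = -2 := by linear_combination h
    have h6 : (X ^ 2 + C a * X + 1 : k[X]) = (X - 1) ^ 2 := by
      rw [ha2, C_neg, C_ofNat]; ring
    have h7 : ((X - 1 : k[X]) ^ (2 * N)) = ((X + 1 : k[X]) ^ (2 * N)).comp (-X) := by
      have h71 : (X - 1 : k[X]) ^ 2 = (-X + 1) ^ 2 := by ring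
      rw [pow_comp, add_comp, X_comp, one_comp, pow_mul, pow_mul, h71]
    rw [h6, ← pow_mul, h7] at ha
    have h8 : (((X + 1 : k[X]) ^ (2 * N)).comp (-X)).coeff i
        = (-1) ^ i * ((X + 1 : k[X]) ^ (2 * N)).coeff i := by
      have := comp_C_mul_X_coeff (r := (-1 : k)) (p := ((X + 1 : k[X]) ^ (2 * N))) (n := i)
      rw [C_neg, C_1, neg_one_mul] at this
      rw [this, mul_comm]
    rw [h8, coeff_X_add_one_pow, hp'] at ha
    rcases mul_eq_zero.1 ha with h9 | h9
    · exact (pow_ne_zero i (neg_ne_zero.2 one_ne_zero)) h9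
    · exact choose_ne_zero_of_lt p (p - 1) i (by omega) (by omega) h9

end

section

variable {k : Type*} [Field k] (p : ℕ) [Fact p.Prime] [CharP k p] [PerfectRing k p]

lemma family_a (hp2 : 2 < p) (g : ℕ) (hg : 1 ≤ g) (i : ℕ) (hip : i < p) (hi : p ∣ g * i + 1)
    (a : k) (ha : ((X ^ 2 + C a * X + 1 : k[X]) ^ ((p - 1) / 2)).coeff i = 0) :
    cart p ((X ^ (2 * g) + C a * X ^ g + 1 : k[X]) ^ ((p - 1) / 2)) = 0 := by
  have hN := two_mul_half p hp2
  have hp1 : 1 ≤ p := by omega
  set N := (p - 1) / 2 with hNdef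
  have hexp : (X ^ (2 * g) + C a * X ^ g + 1 : k[X]) = expand k g (X ^ 2 + C a * X + 1) := by
    simp only [map_add, map_mul, map_pow, expand_X, expand_C, map_one]
    rw [← pow_mul, mul_comm g 2]
  rw [hexp, ← map_pow]
  ext n
  rw [coeff_cart, coeff_expand (by omega), coeff_zero]
  split_ifs with hdiv
  · obtain ⟨j, hj⟩ := hdiv
    have hgj : p ∣ g * j + 1 := by
      rw [← hj]; exact ⟨n + 1, by rw [mul_add, mul_one, mul_comm p n]; omega⟩
    rw [hj, Nat.mul_div_cancel_left _ (by omega)]
    by_cases hjp : j < p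
    · have : j = i := by
        have h1 : g * i ≡ g * j [MOD p] := by
          have h2 : g * i + 1 ≡ g * j + 1 [MOD p] :=
            ((Nat.modEq_zero_iff_dvd).2 hi).trans ((Nat.modEq_zero_iff_dvd).2 hgj).symm
          exact Nat.ModEq.add_right_cancel' 1 h2
        have hcop : Nat.Coprime p g := by
          rw [Nat.Prime.coprime_iff_not_dvd (Fact.out : p.Prime)]
          intro hpg
          have h3 : p ∣ 1 := (Nat.dvd_add_right (dvd_mul_of_dvd_left hpg i)).1 hi
          have := Nat.le_of_dvd one_pos h3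
          omega
        have h4 : i ≡ j [MOD p] := Nat.ModEq.cancel_left_of_coprime hcop h1
        exact (Nat.ModEq.eq_of_lt_of_lt h4 hip hjp).symm
      rw [this, ha, map_zero]
    · rw [coeff_eq_zero_of_natDegree_lt, map_zero]
      have h5 : (X ^ 2 + C a * X + 1 : k[X]).natDegree ≤ 2 := by compute_degree
      have h6 := natDegree_pow_le_of_le N h5
      omega
  · rw [map_zero]

lemma exists_index (g : ℕ) (hp2 : 2 < p) (h0 : ¬ p ∣ g) (h1 : ¬ g ≡ 1 [MOD p]) :
    ∃ i, 1 ≤ i ∧ i + 2 ≤ p ∧ p ∣ g * i + 1 := by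
  have hp := (Fact.out : p.Prime)
  have hg0 : (g : ZMod p) ≠ 0 := by
    rw [Ne, ZMod.natCast_eq_zero_iff]; exact h0
  refine ⟨(-(g : ZMod p)⁻¹).val, ?_, ?_, ?_⟩
  · rw [Nat.one_le_iff_ne_zero, Ne, ZMod.val_eq_zero, neg_eq_zero]
    exact inv_ne_zero hg0
  · have hlt : (-(g : ZMod p)⁻¹).val < p := ZMod.val_lt _
    have hne : (-(g : ZMod p)⁻¹).val ≠ p - 1 := by
      intro h
      apply h1
      have h2 : (-(g : ZMod p)⁻¹) = -1 := by
        rw [← ZMod.natCast_zmod_val (-(g : ZMod p)⁻¹), h, Nat.cast_sub hp.one_le]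
        simp
      have h3 : (g : ZMod p) = ((1 : ℕ) : ZMod p) := by
        have h4 : (g : ZMod p)⁻¹ = 1 := neg_injective h2
        rw [Nat.cast_one]
        exact inv_eq_one.1 h4
      exact (ZMod.natCast_eq_natCast_iff _ _ _).1 h3
    omega
  · rw [← ZMod.natCast_eq_zero_iff]
    push_cast
    rw [ZMod.natCast_zmod_val]
    field_simp
    ring

lemma separable_a (g : ℕ) (hg : 1 ≤ g) (hpg : ¬ p ∣ g) (a : k) (ha : a ^ 2 ≠ 4) :
    (X ^ (2 * g) + C a * X ^ g + 1 : k[X]).Separable := by
  have hder : derivative (X ^ (2 * g) + C a * X ^ g + 1 : k[X])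
      = C (g : k) * (X ^ (g - 1) * (2 * X ^ g + C a)) := by
    obtain ⟨m, rfl⟩ : ∃ m, g = m + 1 := ⟨g - 1, by omega⟩
    simp only [derivative_add, derivative_mul, derivative_X_pow, derivative_C, derivative_one,
      Nat.add_sub_cancel]
    have h1 : 2 * (m + 1) - 1 = m + (m + 1) := by omega
    rw [h1, pow_add]
    push_cast
    simp only [map_add, map_mul, map_natCast, map_one, C_ofNat]
    ring
  have hg0 : (g : k) ≠ 0 := by
    intro h; rw [CharP.cast_eq_zero_iff k p] at h; exact hpg h
  have hu : IsUnit (C (g : k) : k[X]) := isUnit_C.2 (isUnit_iff_ne_zero.2 hg0)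
  have h4 : (4 - a ^ 2 : k) ≠ 0 := by
    intro h; exact ha (by linear_combination -h)
  unfold Polynomial.Separable
  rw [hder, isCoprime_mul_unit_left_right hu]
  refine IsCoprime.mul_right (IsCoprime.pow_right ?_) ?_
  · refine ⟨1, -(X ^ (2 * g - 1) + C a * X ^ (g - 1)), ?_⟩
    obtain ⟨m, rfl⟩ : ∃ m, g = m + 1 := ⟨g - 1, by omega⟩
    have h1 : 2 * (m + 1) - 1 = 2 * m + 1 := by omega
    rw [h1]
    simp only [Nat.add_sub_cancel]
    ring
  · refine ⟨C ((4 - a ^ 2)⁻¹) * 4, -C ((4 - a ^ 2)⁻¹) * (2 * X ^ g + C a), ?_⟩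
    have h5 : C ((4 - a ^ 2)⁻¹) * (4 - C a ^ 2) = (1 : k[X]) := by
      rw [show (4 : k[X]) = C 4 from (C_ofNat 4).symm, ← C_pow, ← C_sub, ← C_mul,
        inv_mul_cancel₀ h4, C_1]
    linear_combination h5

lemma separable_b (g : ℕ) (hpg : p ∣ g) : (X ^ (2 * g) + X : k[X]).Separable := by
  have hder : derivative (X ^ (2 * g) + X : k[X]) = 1 := by
    have h1 : ((2 * g : ℕ) : k) = 0 := by
      rw [CharP.cast_eq_zero_iff k p]; exact hpg.mul_left 2
    simp only [derivative_add, derivative_X_pow, derivative_X, h1, C_0, zero_mul, zero_add]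
  unfold Polynomial.Separable
  rw [hder]; exact isCoprime_one_right

lemma separable_c (hp2 : 2 < p) (t : ℕ) : (X ^ (2 * (p * t + 1)) + 1 : k[X]).Separable := by
  have h2 : (2 : k) ≠ 0 := by
    intro h0
    have h1 : ((2 : ℕ) : k) = 0 := by simpa using h0
    rw [CharP.cast_eq_zero_iff k p] at h1
    exact absurd (Nat.le_of_dvd (by norm_num) h1) (by omega)
  have hder : derivative (X ^ (2 * (p * t + 1)) + 1 : k[X])
      = C (2 : k) * X ^ (2 * (p * t + 1) - 1) := by
    have h1 : ((2 * (p * t + 1) : ℕ) : k) = 2 := by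
      push_cast; rw [CharP.cast_eq_zero k p]; ring
    simp only [derivative_add, derivative_X_pow, derivative_one, h1, add_zero]
  unfold Polynomial.Separable
  rw [hder, isCoprime_mul_unit_left_right (isUnit_C.2 (isUnit_iff_ne_zero.2 h2))]
  refine IsCoprime.pow_right ⟨1, -X ^ (2 * (p * t + 1) - 1), ?_⟩
  have h3 : 2 * (p * t + 1) - 1 = 2 * (p * t) + 1 := by omega
  rw [h3]; ring

/-- For `2 g ≥ p + 3` there is a monic separable `h` of degree `2 g` and a nonzero `w` such that
`w dx / y` is killed by the Cartier operator on `y^2 = h` and `deg w` is small. -/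
lemma exists_family [IsAlgClosed k] (hp2 : 2 < p) (g : ℕ) (hg : p + 3 ≤ 2 * g) :
    ∃ h w : k[X], h.Monic ∧ h.Separable ∧ h.natDegree = 2 * g ∧ w ≠ 0 ∧
      w.natDegree + ((p - 1) / 2 + 1) < g ∧ cart p (w * h ^ ((p - 1) / 2)) = 0 := by
  have hN := two_mul_half p hp2
  have hg1 : 1 ≤ g := by omega
  by_cases h0 : p ∣ g
  · refine ⟨X ^ (2 * g) + X, 1, ?_, separable_b p g h0, ?_, one_ne_zero, ?_, ?_⟩
    · exact monic_X_pow_add (by rw [degree_X]; exact_mod_cast (by omega : 1 < 2 * g))
    · apply natDegree_eq_of_le_of_coeff_ne_zero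
      · compute_degree; omega
      · rw [coeff_add, coeff_X_pow_self, coeff_X, if_neg (by omega), add_zero]; exact one_ne_zero
    · rw [natDegree_one]; omega
    · rw [one_mul]; exact family_b p hp2 g hg1 h0
  · by_cases h1 : g ≡ 1 [MOD p]
    · obtain ⟨t, rfl⟩ : ∃ t, g = p * t + 1 := by
        have h2 : (p : ℤ) ∣ ((g : ℤ) - 1) := by
          have := (Nat.modEq_iff_dvd.1 h1.symm)
          simpa using this
        obtain ⟨s, hs⟩ := h2
        have hs0 : 0 ≤ s := by
          by_contra hneg
          push Not at hneg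
          have : (p : ℤ) * s < 0 := mul_neg_of_pos_of_neg (by exact_mod_cast (by omega)) hneg
          omega
        obtain ⟨t, rfl⟩ := Int.eq_ofNat_of_zero_le hs0
        refine ⟨t, ?_⟩
        have : (g : ℤ) = p * t + 1 := by linear_combination hs
        exact_mod_cast this
      refine ⟨X ^ (2 * (p * t + 1)) + 1, X, ?_, separable_c p hp2 t, ?_, X_ne_zero, ?_, ?_⟩
      · exact monic_X_pow_add (by rw [degree_one]; exact_mod_cast (by omega))
      · have := natDegree_X_pow_add_C (n := 2 * (p * t + 1)) (r := (1 : k))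
        simpa using this
      · rw [natDegree_X]
        rcases t with _ | t
        · omega
        · have : p * (t + 1) = p * t + p := by ring
          have h5 : 0 ≤ p * t := Nat.zero_le _
          omega
      · exact family_c p hp2 t
    · obtain ⟨i, hi1, hi2, hi3⟩ := exists_index p g hp2 h0 h1
      obtain ⟨a, ha1, ha2⟩ := exists_root (k := k) p hp2 i hi1 hi2
      refine ⟨X ^ (2 * g) + C a * X ^ g + 1, 1, ?_, separable_a p g hg1 h0 a ha1, ?_,
        one_ne_zero, ?_, ?_⟩
      · rw [add_assoc]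
        apply monic_X_pow_add
        refine lt_of_le_of_lt (degree_add_le _ _) (max_lt ?_ ?_)
        · refine lt_of_le_of_lt (degree_C_mul_X_pow_le g a) ?_
          exact_mod_cast (by omega : g < 2 * g)
        · rw [degree_one]; exact_mod_cast (by omega : 0 < 2 * g)
      · apply natDegree_eq_of_le_of_coeff_ne_zero
        · compute_degree; omega
        · rw [coeff_add, coeff_add, coeff_X_pow_self, coeff_C_mul_X_pow, if_neg (by omega),
            coeff_one, if_neg (by omega), add_zero, add_zero]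
          exact one_ne_zero
      · rw [natDegree_one]; omega
      · rw [one_mul]; exact family_a p hp2 g hg1 i (by omega) hi3 a ha2

omit [Fact p.Prime] [CharP k p] [PerfectRing k p] in
lemma monic_sep_eq_prod [IsAlgClosed k] (h : k[X]) (hm : h.Monic) (hs : h.Separable) :
    ∃ Λ : Finset k, Λ.card = h.natDegree ∧ h = ∏ l ∈ Λ, (X - C l) := by
  classical
  have hsplit : h.Splits := IsAlgClosed.splits h
  have hcard : Multiset.card h.roots = h.natDegree := splits_iff_card_roots.1 hsplit
  have hnodup : h.roots.Nodup := nodup_roots hs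
  refine ⟨h.roots.toFinset, ?_, ?_⟩
  · rw [Multiset.toFinset_card_of_nodup hnodup, hcard]
  · have h1 := prod_multiset_X_sub_C_of_monic_of_roots_card_eq hm hcard
    conv_lhs => rw [← h1]
    rw [Finset.prod_eq_multiset_prod, Multiset.toFinset_val, Multiset.dedup_eq_self.2 hnodup]

theorem main [IsAlgClosed k] (hp2 : 2 < p) (g : ℕ) (hg : p + 3 ≤ 2 * g) :
    ∃ Λ : Finset k, Λ.card = 2 * g ∧ ∀ μ ∉ Λ, ∃ r < g,
      HasPRank p ((X - C μ) * ∏ l ∈ Λ, (X - C l)) r := by
  classical
  have hN := two_mul_half p hp2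
  obtain ⟨h, w, hmon, hsep, hdeg, hw, hwd, hcart⟩ := exists_family (k := k) p hp2 g hg
  obtain ⟨Λ, hΛ, hprod⟩ := monic_sep_eq_prod h hmon hsep
  refine ⟨Λ, by rw [hΛ, hdeg], fun μ hμ => ?_⟩
  rw [← hprod]
  set N := (p - 1) / 2 with hNdef
  have hμ0 : h.eval μ ≠ 0 := by
    rw [hprod, eval_prod, Finset.prod_ne_zero_iff]
    intro l hl
    rw [eval_sub, eval_X, eval_C]
    intro h0
    apply hμ
    rw [sub_eq_zero.1 h0]; exact hl
  have hcop : IsCoprime (X - C μ) h := by
    rw [(irreducible_X_sub_C μ).coprime_iff_not_dvd, dvd_iff_isRoot]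
    exact hμ0
  have hsq : Squarefree ((X - C μ) * h) :=
    ((separable_X_sub_C).mul hsep hcop).squarefree
  have hfd : ((X - C μ) * h).natDegree = 2 * g + 1 := by
    rw [natDegree_mul (X_sub_C_ne_zero μ) hmon.ne_zero, natDegree_X_sub_C, hdeg]; ring
  have hu : (X - C μ) ^ (N + 1) * w ≠ 0 := mul_ne_zero (pow_ne_zero _ (X_sub_C_ne_zero μ)) hw
  have hud : ((X - C μ) ^ (N + 1) * w).degree < (g : WithBot ℕ) := by
    rw [degree_eq_natDegree hu, natDegree_mul (pow_ne_zero _ (X_sub_C_ne_zero μ)) hw,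
      natDegree_pow, natDegree_X_sub_C]
    exact_mod_cast (by omega)
  have hu0 : cart p ((X - C μ) ^ (N + 1) * w * ((X - C μ) * h) ^ ((p - 1) / 2)) = 0 := by
    have h1 : (X - C μ) ^ (N + 1) * w * ((X - C μ) * h) ^ ((p - 1) / 2)
        = (X - C μ) ^ p * (w * h ^ ((p - 1) / 2)) := by
      have h2 : (X - C μ) ^ p = (X - C μ) ^ (2 * N + 1) := by rw [hN]
      rw [← hNdef, mul_pow, h2]
      ring
    rw [h1, cart_pow_mul, ← hNdef, hcart, mul_zero]
  obtain ⟨hfin, hle⟩ := card_torsion_le p hp2 ((X - C μ) * h) hsq g (by omega) hfd _ hu hud hu0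
  -- the torsion subgroup is a p-group
  have hfinite : Finite {c : CommRing.Pic (AdjoinRoot (X ^ 2 - C ((X - C μ) * h) : k[X][X])) //
      c ^ p = 1} := hfin
  have hpow : ∃ r, Nat.card {c : CommRing.Pic (AdjoinRoot (X ^ 2 - C ((X - C μ) * h) : k[X][X])) //
      c ^ p = 1} = p ^ r := by
    let G : Subgroup (CommRing.Pic (AdjoinRoot (X ^ 2 - C ((X - C μ) * h) : k[X][X]))) :=
      (powMonoidHom p).ker
    have hG : IsPGroup p G := by
      intro x
      refine ⟨1, ?_⟩
      rw [pow_one]
      apply Subtype.ext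
      exact x.2
    have hGfin : Finite G := hfinite
    obtain ⟨r, hr⟩ := IsPGroup.iff_card.1 hG
    exact ⟨r, hr⟩
  obtain ⟨r, hr⟩ := hpow
  refine ⟨r, ?_, hr⟩
  have h3 : p ^ r ≤ p ^ (g - 1) := by
    rw [← hr]; exact hle
  have h4 := (Nat.pow_le_pow_iff_right (Fact.out : p.Prime).one_lt).1 h3
  omega

end


/-- For every algebraically closed field `k` of characteristic `p > 2` and every `g` with
`2 g ≥ p + 3` there is a set `Λ` of `2 g` distinct elements of `k` such that for every `μ ∉ Λ` the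
hyperelliptic curve `y^2 = (x - μ) ∏_{l ∈ Λ} (x - l)` of genus `g` has `p`-rank less than `g`. -/
theorem result : ∀ (k : Type*) [Field k] [IsAlgClosed k] (p : ℕ) [Fact p.Prime] [CharP k p],
    2 < p → ∀ g : ℕ, p + 3 ≤ 2 * g →
    ∃ Λ : Finset k, Λ.card = 2 * g ∧
      ∀ μ : k, μ ∉ Λ → ∃ r < g, HasPRank p ((X - C μ) * ∏ l ∈ Λ, (X - C l)) r := by
  intro k _ _ p _ _ hp2 g hg
  exact main p hp2 g hg

end Pool.Agent.Results.MP_2ca583_ag.Disproof
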