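import Mathlib

/-!
Let `k` be algebraically closed of characteristic `p > 2`, `N = (p-1)/2`, and let
`y^2 = f(x) = (x-t) h(x)` with `h` of degree `2g` separable and `t` varying.

Positive part. Suppose that the curve is non-ordinary for all `t`. Over `k[t]` there is a nonzero
`U(x,t)` of `x`-degree `< g` such that no monomial `x^(pj-1)` occurs in `U f^N`. The lemma
`pointwise` (a sum of residues, computed with Taylor expansions) shows `U(t,t) = 0`, and applying it
to the `t`-derivatives gives `(x-t)^(N+1) ∣ U`. This is impossible if `g ≤ N+1`, i.e. `2g ≤ p+1`.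

Negative part. If `w ≠ 0`, `deg w + N + 1 < g` and no monomial `x^(pj-1)` occurs in `w h^N`, then
`U = (x-t)^(N+1) w` satisfies `U f^N = (x-t)^p w h^N`, so the curve is non-ordinary for all `t`. Such
`h, w` are constructed for all `2g ≥ p+3`.
-/

open Polynomial

namespace Pool.Agent.Results.MP_2ca583_ag.HasseWittClassification

/-- The Hasse-Witt (Cartier-Manin) matrix of `y^2 = f(x)`: the entry with indices `i, j` (from `0`)
is the coefficient `c_{p(i+1)-(j+1)}` of `f^((p-1)/2)`, written as the coefficient of `x^(p(i+1))` in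
`x^(j+1) f^((p-1)/2)`; it is `0` if `p(i+1) < j+1`. -/
noncomputable def hasseWitt {R : Type*} [CommRing R] (p g : ℕ) (f : R[X]) :
    Matrix (Fin g) (Fin g) R :=
  Matrix.of fun i j => (X ^ ((j : ℕ) + 1) * f ^ ((p - 1) / 2)).coeff (p * ((i : ℕ) + 1))

section

variable {k : Type*} [Field k] (p : ℕ) [Fact p.Prime] [CharP k p] [PerfectRing k p]

/-- Cartier operator on k[x] dx: coefficient n is the p-th root of coefficient n p + p - 1. -/
noncomputable def cart (F : k[X]) : k[X] :=
  ((contract p (X * F)).divX).map ((frobeniusEquiv k p).symm : k →+* k)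

lemma coeff_cart (F : k[X]) (n : ℕ) :
    (cart p F).coeff n = (frobeniusEquiv k p).symm (F.coeff (n * p + (p - 1))) := by
  have hp : p ≠ 0 := (Fact.out : p.Prime).ne_zero
  have h1 : (n + 1) * p = (n * p + (p - 1)) + 1 := by
    have : 1 ≤ p := (Fact.out : p.Prime).one_le
    rw [add_mul]; omega
  simp only [cart, coeff_map, coeff_divX, coeff_contract hp, h1, coeff_X_mul]
  rfl

lemma cart_add (F G : k[X]) : cart p (F + G) = cart p F + cart p G := by
  ext n; simp only [coeff_cart, coeff_add, map_add]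

lemma cart_zero : cart p (0 : k[X]) = 0 := by
  ext n; simp only [coeff_cart, coeff_zero, map_zero]

lemma cart_neg (F : k[X]) : cart p (-F) = -cart p F := by
  ext n; simp only [coeff_cart, coeff_neg, map_neg]

lemma cart_sub (F G : k[X]) : cart p (F - G) = cart p F - cart p G := by
  ext n; simp only [coeff_cart, coeff_sub, map_sub]

lemma cart_sum {ι : Type*} (s : Finset ι) (F : ι → k[X]) :
    cart p (∑ i ∈ s, F i) = ∑ i ∈ s, cart p (F i) := by
  classical
  induction s using Finset.induction_on with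
  | empty => simp [cart_zero]
  | insert a s ha ih => rw [Finset.sum_insert ha, Finset.sum_insert ha, cart_add, ih]

/-- the p-th power of a polynomial is an expansion -/
lemma pow_eq_expand (G : k[X]) : G ^ p = expand k p (G.map (frobenius k p)) := by
  rw [← map_expand, map_frobenius_expand]

lemma cart_pow_mul (G F : k[X]) : cart p (G ^ p * F) = G * cart p F := by
  have hp : p ≠ 0 := (Fact.out : p.Prime).ne_zero
  have h1 : X * (G ^ p * F) = (X * F) * expand k p (G.map (frobenius k p)) := by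
    rw [pow_eq_expand]; ring
  have h2 : (contract p (X * F)).coeff 0 = 0 := by
    rw [coeff_contract hp]; simp
  have h3 : contract p (X * F) = X * (contract p (X * F)).divX := by
    conv_lhs => rw [← divX_mul_X_add (contract p (X * F)), h2]
    simp [mul_comm]
  have h4 : ∀ H : k[X], (X * H).divX = H := by
    intro H; ext n; simp [coeff_divX]
  unfold cart
  rw [h1, contract_mul_expand hp, h3, mul_assoc, h4, h4, Polynomial.map_mul, Polynomial.map_map]
  have h5 : (((frobeniusEquiv k p).symm : k →+* k).comp (frobenius k p)) = RingHom.id k := by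
    ext x; simp
  rw [h5, Polynomial.map_id, mul_comm]

lemma cart_derivative (F : k[X]) : cart p (derivative F) = 0 := by
  ext n
  have h1 : ((n * p + (p - 1) : ℕ) : k) + 1 = 0 := by
    have : 1 ≤ p := (Fact.out : p.Prime).one_le
    have h2 : (n * p + (p - 1)) + 1 = (n + 1) * p := by rw [add_mul]; omega
    rw [← Nat.cast_succ, Nat.succ_eq_add_one, h2, Nat.cast_mul, CharP.cast_eq_zero k p, mul_zero]
  rw [coeff_cart, coeff_derivative, h1, mul_zero, map_zero, coeff_zero]

end

section

variable (p : ℕ) [Fact p.Prime]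

lemma two_mul_half (hp2 : 2 < p) : 2 * ((p - 1) / 2) + 1 = p := by
  have : Odd p := (Fact.out : p.Prime).odd_of_ne_two (by omega)
  obtain ⟨m, hm⟩ := this
  omega

end

section

variable {k : Type*} [Field k] (p : ℕ) [Fact p.Prime] [CharP k p] [PerfectRing k p]

lemma cart_C_mul_X_pow (c : k) (e : ℕ) (he : ¬ p ∣ e + 1) : cart p (C c * X ^ e) = 0 := by
  ext n
  rw [coeff_cart, coeff_C_mul_X_pow, coeff_zero]
  have hp1 : 1 ≤ p := (Fact.out : p.Prime).one_le
  rw [if_neg, map_zero]
  intro h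
  apply he
  rw [← h]
  refine ⟨n + 1, ?_⟩
  rw [mul_add, mul_one, mul_comm p n]; omega

lemma half_lt (hp2 : 2 < p) : (p - 1) / 2 < p := by omega

/-- case `p ∣ g` -/
lemma family_b (hp2 : 2 < p) (g : ℕ) (hg : 1 ≤ g) (hpg : p ∣ g) :
    cart p ((X ^ (2 * g) + X : k[X]) ^ ((p - 1) / 2)) = 0 := by
  have hN := two_mul_half p hp2
  set N := (p - 1) / 2 with hNdef
  obtain ⟨t, rfl⟩ := hpg
  rw [add_pow, cart_sum]
  apply Finset.sum_eq_zero
  intro i hi
  have hi' : i ≤ N := by have := Finset.mem_range.1 hi; omega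
  have h1 : ((X : k[X]) ^ (2 * (p * t))) ^ i * X ^ (N - i) * ((N.choose i : ℕ) : k[X])
      = C ((N.choose i : ℕ) : k) * X ^ (2 * (p * t) * i + (N - i)) := by
    rw [← pow_mul, ← pow_add, mul_comm]; simp
  rw [h1]
  apply cart_C_mul_X_pow
  intro hdvd
  have h2 : 2 * (p * t) * i + (N - i) + 1 = p * (2 * t * i) + (N - i + 1) := by ring
  rw [h2, Nat.dvd_add_right (dvd_mul_right _ _)] at hdvd
  have := Nat.le_of_dvd (by omega) hdvd
  omega

/-- case `g ≡ 1 (mod p)` -/
lemma family_c (hp2 : 2 < p) (t : ℕ) :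
    cart p (X * (X ^ (2 * (p * t + 1)) + 1 : k[X]) ^ ((p - 1) / 2)) = 0 := by
  have hN := two_mul_half p hp2
  set N := (p - 1) / 2 with hNdef
  rw [add_pow, Finset.mul_sum, cart_sum]
  apply Finset.sum_eq_zero
  intro i hi
  have hi' : i ≤ N := by have := Finset.mem_range.1 hi; omega
  have h1 : (X : k[X]) * (((X : k[X]) ^ (2 * (p * t + 1))) ^ i * 1 ^ (N - i)
      * ((N.choose i : ℕ) : k[X]))
      = C ((N.choose i : ℕ) : k) * X ^ (2 * (p * t + 1) * i + 1) := by
    rw [← pow_mul, pow_succ]; simp; ring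
  rw [h1]
  apply cart_C_mul_X_pow
  intro hdvd
  have h2 : 2 * (p * t + 1) * i + 1 + 1 = p * (2 * t * i) + (2 * i + 2) := by ring
  rw [h2, Nat.dvd_add_right (dvd_mul_right _ _)] at hdvd
  obtain ⟨s, hs⟩ := hdvd
  rcases s with _ | _ | s
  · omega
  · omega
  · have : p * (s + 1 + 1) = p * s + 2 * p := by ring
    have h5 : 0 ≤ p * s := Nat.zero_le _
    omega

lemma choose_ne_zero_of_lt (n m : ℕ) (hn : n < p) (hm : m ≤ n) : ((n.choose m : ℕ) : k) ≠ 0 := by
  intro h
  rw [CharP.cast_eq_zero_iff k p] at h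
  have h1 := (Nat.Prime.dvd_factorial (Fact.out : p.Prime)).1
    (dvd_trans (dvd_trans h (dvd_mul_right _ (m.factorial * (n - m).factorial)))
      (by rw [← mul_assoc, Nat.choose_mul_factorial_mul_factorial hm]))
  omega

/-- there is `a` with `a^2 ≠ 4` such that the coefficient of `T^i` in `(T^2+aT+1)^((p-1)/2)`
vanishes -/
lemma exists_root [IsAlgClosed k] (hp2 : 2 < p) (i : ℕ) (hi1 : 1 ≤ i) (hi2 : i + 2 ≤ p) :
    ∃ a : k, a ^ 2 ≠ 4 ∧ ((X ^ 2 + C a * X + 1 : k[X]) ^ ((p - 1) / 2)).coeff i = 0 := by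
  have hN := two_mul_half p hp2
  set N := (p - 1) / 2 with hNdef
  -- the coefficient as a polynomial in a
  set P : k[X] := ∑ m ∈ Finset.range (N + 1),
    C (((N.choose m : ℕ) : k) * (if m ≤ i then ((X ^ 2 + 1 : k[X]) ^ (N - m)).coeff (i - m) else 0))
      * X ^ m with hP
  have hPeval : ∀ a : k, P.eval a = ((X ^ 2 + C a * X + 1 : k[X]) ^ N).coeff i := by
    intro a
    have h1 : (X ^ 2 + C a * X + 1 : k[X]) ^ N = (C a * X + (X ^ 2 + 1)) ^ N := by
      congr 1; ring
    rw [h1, add_pow, finsetSum_coeff, hP, eval_finsetSum]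
    refine Finset.sum_congr rfl fun m _ => ?_
    have h2 : (C a * X : k[X]) ^ m * (X ^ 2 + 1) ^ (N - m) * ((N.choose m : ℕ) : k[X])
        = C (a ^ m * ((N.choose m : ℕ) : k)) * ((X ^ 2 + 1) ^ (N - m) * X ^ m) := by
      rw [mul_pow, C_mul, C_pow]; simp; ring
    rw [h2, coeff_C_mul, coeff_mul_X_pow']
    simp only [eval_mul, eval_C, eval_pow, eval_X]
    split_ifs <;> ring
  have hdeg : P.natDegree ≠ 0 := by
    intro h0
    obtain ⟨m, hm1, hm2, hm3⟩ : ∃ m, 1 ≤ m ∧ m ≤ N ∧ P.coeff m ≠ 0 := by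
      have hcoef : ∀ m, m ≤ N → m ≤ i → P.coeff m
          = ((N.choose m : ℕ) : k) * ((X ^ 2 + 1 : k[X]) ^ (N - m)).coeff (i - m) := by
        intro m hm hmi
        rw [hP, finsetSum_coeff, Finset.sum_eq_single m]
        · rw [coeff_C_mul_X_pow, if_pos rfl, if_pos hmi]
        · intro b _ hb
          rw [coeff_C_mul_X_pow, if_neg (Ne.symm hb)]
        · intro h; exact absurd (Finset.mem_range.2 (by omega)) h
      by_cases hiN : i ≤ N
      · refine ⟨i, hi1, hiN, ?_⟩
        rw [hcoef i hiN le_rfl, Nat.sub_self]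
        have : ((X ^ 2 + 1 : k[X]) ^ (N - i)).coeff 0 = 1 := by
          rw [coeff_zero_eq_eval_zero]; simp
        rw [this, mul_one]
        exact choose_ne_zero_of_lt p N i (by omega) hiN
      · refine ⟨2 * N - i, by omega, by omega, ?_⟩
        rw [hcoef _ (by omega) (by omega)]
        have h3 : i - (2 * N - i) = 2 * (N - (2 * N - i)) := by omega
        have : ((X ^ 2 + 1 : k[X]) ^ (N - (2 * N - i))).coeff (i - (2 * N - i)) = 1 := by
          rw [h3]
          have hmonic : (X ^ 2 + 1 : k[X]).Monic := by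
            have := monic_X_pow_add_C (1 : k) (two_ne_zero)
            simpa using this
          have hnd : ((X ^ 2 + 1 : k[X]) ^ (N - (2 * N - i))).natDegree
              = 2 * (N - (2 * N - i)) := by
            rw [hmonic.natDegree_pow]
            have : (X ^ 2 + 1 : k[X]).natDegree = 2 := by
              have := natDegree_X_pow_add_C (n := 2) (r := (1 : k))
              simpa using this
            rw [this]; ring
          rw [← hnd]
          exact (hmonic.pow _)
        rw [this, mul_one]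
        exact choose_ne_zero_of_lt p N _ (by omega) (by omega)
    apply hm3
    exact coeff_eq_zero_of_natDegree_lt (by omega)
  have hdeg' : P.degree ≠ 0 := by
    intro h; exact hdeg (natDegree_eq_of_degree_eq_some h)
  obtain ⟨a, ha⟩ := IsAlgClosed.exists_root P hdeg'
  rw [IsRoot.def, hPeval] at ha
  refine ⟨a, ?_, ha⟩
  intro h4
  have h5 : (a - 2) * (a + 2) = 0 := by linear_combination h4
  have hp' : 2 * N = p - 1 := by omega
  rcases mul_eq_zero.1 h5 with h | h
  · have ha2 : a = 2 := by linear_combination h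
    have h6 : (X ^ 2 + C a * X + 1 : k[X]) = (X + 1) ^ 2 := by
      rw [ha2, C_ofNat]; ring
    rw [h6, ← pow_mul, coeff_X_add_one_pow, hp'] at ha
    exact choose_ne_zero_of_lt p (p - 1) i (by omega) (by omega) ha
  · have ha2 : a = -2 := by linear_combination h
    have h6 : (X ^ 2 + C a * X + 1 : k[X]) = (X - 1) ^ 2 := by
      rw [ha2, C_neg, C_ofNat]; ring
    have h7 : ((X - 1 : k[X]) ^ (2 * N)) = ((X + 1 : k[X]) ^ (2 * N)).comp (-X) := by
      have h71 : (X - 1 : k[X]) ^ 2 = (-X + 1) ^ 2 := by ring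
      rw [pow_comp, add_comp, X_comp, one_comp, pow_mul, pow_mul, h71]
    rw [h6, ← pow_mul, h7] at ha
    have h8 : (((X + 1 : k[X]) ^ (2 * N)).comp (-X)).coeff i
        = (-1) ^ i * ((X + 1 : k[X]) ^ (2 * N)).coeff i := by
      have := comp_C_mul_X_coeff (r := (-1 : k)) (p := ((X + 1 : k[X]) ^ (2 * N))) (n := i)
      rw [C_neg, C_1, neg_one_mul] at this
      rw [this, mul_comm]
    rw [h8, coeff_X_add_one_pow, hp'] at ha
    rcases mul_eq_zero.1 ha with h9 | h9
    · exact (pow_ne_zero i (neg_ne_zero.2 one_ne_zero)) h9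
    · exact choose_ne_zero_of_lt p (p - 1) i (by omega) (by omega) h9

end

section

variable {k : Type*} [Field k] (p : ℕ) [Fact p.Prime] [CharP k p] [PerfectRing k p]

lemma family_a (hp2 : 2 < p) (g : ℕ) (hg : 1 ≤ g) (i : ℕ) (hip : i < p) (hi : p ∣ g * i + 1)
    (a : k) (ha : ((X ^ 2 + C a * X + 1 : k[X]) ^ ((p - 1) / 2)).coeff i = 0) :
    cart p ((X ^ (2 * g) + C a * X ^ g + 1 : k[X]) ^ ((p - 1) / 2)) = 0 := by
  have hN := two_mul_half p hp2
  have hp1 : 1 ≤ p := by omega
  set N := (p - 1) / 2 with hNdef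
  have hexp : (X ^ (2 * g) + C a * X ^ g + 1 : k[X]) = expand k g (X ^ 2 + C a * X + 1) := by
    simp only [map_add, map_mul, map_pow, expand_X, expand_C, map_one]
    rw [← pow_mul, mul_comm g 2]
  rw [hexp, ← map_pow]
  ext n
  rw [coeff_cart, coeff_expand (by omega), coeff_zero]
  split_ifs with hdiv
  · obtain ⟨j, hj⟩ := hdiv
    have hgj : p ∣ g * j + 1 := by
      rw [← hj]; exact ⟨n + 1, by rw [mul_add, mul_one, mul_comm p n]; omega⟩
    rw [hj, Nat.mul_div_cancel_left _ (by omega)]
    by_cases hjp : j < p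
    · have : j = i := by
        have h1 : g * i ≡ g * j [MOD p] := by
          have h2 : g * i + 1 ≡ g * j + 1 [MOD p] :=
            ((Nat.modEq_zero_iff_dvd).2 hi).trans ((Nat.modEq_zero_iff_dvd).2 hgj).symm
          exact Nat.ModEq.add_right_cancel' 1 h2
        have hcop : Nat.Coprime p g := by
          rw [Nat.Prime.coprime_iff_not_dvd (Fact.out : p.Prime)]
          intro hpg
          have h3 : p ∣ 1 := (Nat.dvd_add_right (dvd_mul_of_dvd_left hpg i)).1 hi
          have := Nat.le_of_dvd one_pos h3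
          omega
        have h4 : i ≡ j [MOD p] := Nat.ModEq.cancel_left_of_coprime hcop h1
        exact (Nat.ModEq.eq_of_lt_of_lt h4 hip hjp).symm
      rw [this, ha, map_zero]
    · rw [coeff_eq_zero_of_natDegree_lt, map_zero]
      have h5 : (X ^ 2 + C a * X + 1 : k[X]).natDegree ≤ 2 := by compute_degree
      have h6 := natDegree_pow_le_of_le N h5
      omega
  · rw [map_zero]

lemma exists_index (g : ℕ) (hp2 : 2 < p) (h0 : ¬ p ∣ g) (h1 : ¬ g ≡ 1 [MOD p]) :
    ∃ i, 1 ≤ i ∧ i + 2 ≤ p ∧ p ∣ g * i + 1 := by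
  have hp := (Fact.out : p.Prime)
  have hg0 : (g : ZMod p) ≠ 0 := by
    rw [Ne, ZMod.natCast_eq_zero_iff]; exact h0
  refine ⟨(-(g : ZMod p)⁻¹).val, ?_, ?_, ?_⟩
  · rw [Nat.one_le_iff_ne_zero, Ne, ZMod.val_eq_zero, neg_eq_zero]
    exact inv_ne_zero hg0
  · have hlt : (-(g : ZMod p)⁻¹).val < p := ZMod.val_lt _
    have hne : (-(g : ZMod p)⁻¹).val ≠ p - 1 := by
      intro h
      apply h1
      have h2 : (-(g : ZMod p)⁻¹) = -1 := by
        rw [← ZMod.natCast_zmod_val (-(g : ZMod p)⁻¹), h, Nat.cast_sub hp.one_le]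
        simp
      have h3 : (g : ZMod p) = ((1 : ℕ) : ZMod p) := by
        have h4 : (g : ZMod p)⁻¹ = 1 := neg_injective h2
        rw [Nat.cast_one]
        exact inv_eq_one.1 h4
      exact (ZMod.natCast_eq_natCast_iff _ _ _).1 h3
    omega
  · rw [← ZMod.natCast_eq_zero_iff]
    push_cast
    rw [ZMod.natCast_zmod_val]
    field_simp
    ring

lemma separable_a (g : ℕ) (hg : 1 ≤ g) (hpg : ¬ p ∣ g) (a : k) (ha : a ^ 2 ≠ 4) :
    (X ^ (2 * g) + C a * X ^ g + 1 : k[X]).Separable := by
  have hder : derivative (X ^ (2 * g) + C a * X ^ g + 1 : k[X])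
      = C (g : k) * (X ^ (g - 1) * (2 * X ^ g + C a)) := by
    obtain ⟨m, rfl⟩ : ∃ m, g = m + 1 := ⟨g - 1, by omega⟩
    simp only [derivative_add, derivative_mul, derivative_X_pow, derivative_C, derivative_one,
      Nat.add_sub_cancel]
    have h1 : 2 * (m + 1) - 1 = m + (m + 1) := by omega
    rw [h1, pow_add]
    push_cast
    simp only [map_add, map_mul, map_natCast, map_one, C_ofNat]
    ring
  have hg0 : (g : k) ≠ 0 := by
    intro h; rw [CharP.cast_eq_zero_iff k p] at h; exact hpg h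
  have hu : IsUnit (C (g : k) : k[X]) := isUnit_C.2 (isUnit_iff_ne_zero.2 hg0)
  have h4 : (4 - a ^ 2 : k) ≠ 0 := by
    intro h; exact ha (by linear_combination -h)
  unfold Polynomial.Separable
  rw [hder, isCoprime_mul_unit_left_right hu]
  refine IsCoprime.mul_right (IsCoprime.pow_right ?_) ?_
  · refine ⟨1, -(X ^ (2 * g - 1) + C a * X ^ (g - 1)), ?_⟩
    obtain ⟨m, rfl⟩ : ∃ m, g = m + 1 := ⟨g - 1, by omega⟩
    have h1 : 2 * (m + 1) - 1 = 2 * m + 1 := by omega
    rw [h1]
    simp only [Nat.add_sub_cancel]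
    ring
  · refine ⟨C ((4 - a ^ 2)⁻¹) * 4, -C ((4 - a ^ 2)⁻¹) * (2 * X ^ g + C a), ?_⟩
    have h5 : C ((4 - a ^ 2)⁻¹) * (4 - C a ^ 2) = (1 : k[X]) := by
      rw [show (4 : k[X]) = C 4 from (C_ofNat 4).symm, ← C_pow, ← C_sub, ← C_mul,
        inv_mul_cancel₀ h4, C_1]
    linear_combination h5

lemma separable_b (g : ℕ) (hpg : p ∣ g) : (X ^ (2 * g) + X : k[X]).Separable := by
  have hder : derivative (X ^ (2 * g) + X : k[X]) = 1 := by
    have h1 : ((2 * g : ℕ) : k) = 0 := by
      rw [CharP.cast_eq_zero_iff k p]; exact hpg.mul_left 2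
    simp only [derivative_add, derivative_X_pow, derivative_X, h1, C_0, zero_mul, zero_add]
  unfold Polynomial.Separable
  rw [hder]; exact isCoprime_one_right

lemma separable_c (hp2 : 2 < p) (t : ℕ) : (X ^ (2 * (p * t + 1)) + 1 : k[X]).Separable := by
  have h2 : (2 : k) ≠ 0 := by
    intro h0
    have h1 : ((2 : ℕ) : k) = 0 := by simpa using h0
    rw [CharP.cast_eq_zero_iff k p] at h1
    exact absurd (Nat.le_of_dvd (by norm_num) h1) (by omega)
  have hder : derivative (X ^ (2 * (p * t + 1)) + 1 : k[X])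
      = C (2 : k) * X ^ (2 * (p * t + 1) - 1) := by
    have h1 : ((2 * (p * t + 1) : ℕ) : k) = 2 := by
      push_cast; rw [CharP.cast_eq_zero k p]; ring
    simp only [derivative_add, derivative_X_pow, derivative_one, h1, add_zero]
  unfold Polynomial.Separable
  rw [hder, isCoprime_mul_unit_left_right (isUnit_C.2 (isUnit_iff_ne_zero.2 h2))]
  refine IsCoprime.pow_right ⟨1, -X ^ (2 * (p * t + 1) - 1), ?_⟩
  have h3 : 2 * (p * t + 1) - 1 = 2 * (p * t) + 1 := by omega
  rw [h3]; ring

/-- For `2 g ≥ p + 3` there is a monic separable `h` of degree `2 g` and a nonzero `w` such that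
`w dx / y` is killed by the Cartier operator on `y^2 = h` and `deg w` is small. -/
lemma exists_family [IsAlgClosed k] (hp2 : 2 < p) (g : ℕ) (hg : p + 3 ≤ 2 * g) :
    ∃ h w : k[X], h.Monic ∧ h.Separable ∧ h.natDegree = 2 * g ∧ w ≠ 0 ∧
      w.natDegree + ((p - 1) / 2 + 1) < g ∧ cart p (w * h ^ ((p - 1) / 2)) = 0 := by
  have hN := two_mul_half p hp2
  have hg1 : 1 ≤ g := by omega
  by_cases h0 : p ∣ g
  · refine ⟨X ^ (2 * g) + X, 1, ?_, separable_b p g h0, ?_, one_ne_zero, ?_, ?_⟩
    · exact monic_X_pow_add (by rw [degree_X]; exact_mod_cast (by omega : 1 < 2 * g))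
    · apply natDegree_eq_of_le_of_coeff_ne_zero
      · compute_degree; omega
      · rw [coeff_add, coeff_X_pow_self, coeff_X, if_neg (by omega), add_zero]; exact one_ne_zero
    · rw [natDegree_one]; omega
    · rw [one_mul]; exact family_b p hp2 g hg1 h0
  · by_cases h1 : g ≡ 1 [MOD p]
    · obtain ⟨t, rfl⟩ : ∃ t, g = p * t + 1 := by
        have h2 : (p : ℤ) ∣ ((g : ℤ) - 1) := by
          have := (Nat.modEq_iff_dvd.1 h1.symm)
          simpa using this
        obtain ⟨s, hs⟩ := h2
        have hs0 : 0 ≤ s := by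
          by_contra hneg
          push Not at hneg
          have : (p : ℤ) * s < 0 := mul_neg_of_pos_of_neg (by exact_mod_cast (by omega)) hneg
          omega
        obtain ⟨t, rfl⟩ := Int.eq_ofNat_of_zero_le hs0
        refine ⟨t, ?_⟩
        have : (g : ℤ) = p * t + 1 := by linear_combination hs
        exact_mod_cast this
      refine ⟨X ^ (2 * (p * t + 1)) + 1, X, ?_, separable_c p hp2 t, ?_, X_ne_zero, ?_, ?_⟩
      · exact monic_X_pow_add (by rw [degree_one]; exact_mod_cast (by omega))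
      · have := natDegree_X_pow_add_C (n := 2 * (p * t + 1)) (r := (1 : k))
        simpa using this
      · rw [natDegree_X]
        rcases t with _ | t
        · omega
        · have : p * (t + 1) = p * t + p := by ring
          have h5 : 0 ≤ p * t := Nat.zero_le _
          omega
      · exact family_c p hp2 t
    · obtain ⟨i, hi1, hi2, hi3⟩ := exists_index p g hp2 h0 h1
      obtain ⟨a, ha1, ha2⟩ := exists_root (k := k) p hp2 i hi1 hi2
      refine ⟨X ^ (2 * g) + C a * X ^ g + 1, 1, ?_, separable_a p g hg1 h0 a ha1, ?_,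
        one_ne_zero, ?_, ?_⟩
      · rw [add_assoc]
        apply monic_X_pow_add
        refine lt_of_le_of_lt (degree_add_le _ _) (max_lt ?_ ?_)
        · refine lt_of_le_of_lt (degree_C_mul_X_pow_le g a) ?_
          exact_mod_cast (by omega : g < 2 * g)
        · rw [degree_one]; exact_mod_cast (by omega : 0 < 2 * g)
      · apply natDegree_eq_of_le_of_coeff_ne_zero
        · compute_degree; omega
        · rw [coeff_add, coeff_add, coeff_X_pow_self, coeff_C_mul_X_pow, if_neg (by omega),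
            coeff_one, if_neg (by omega), add_zero, add_zero]
          exact one_ne_zero
      · rw [natDegree_one]; omega
      · rw [one_mul]; exact family_a p hp2 g hg1 i (by omega) hi3 a ha2

omit [Fact p.Prime] [CharP k p] [PerfectRing k p] in
lemma monic_sep_eq_prod [IsAlgClosed k] (h : k[X]) (hm : h.Monic) (hs : h.Separable) :
    ∃ Λ : Finset k, Λ.card = h.natDegree ∧ h = ∏ l ∈ Λ, (X - C l) := by
  classical
  have hsplit : h.Splits := IsAlgClosed.splits h
  have hcard : Multiset.card h.roots = h.natDegree := splits_iff_card_roots.1 hsplit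
  have hnodup : h.roots.Nodup := nodup_roots hs
  refine ⟨h.roots.toFinset, ?_, ?_⟩
  · rw [Multiset.toFinset_card_of_nodup hnodup, hcard]
  · have h1 := prod_multiset_X_sub_C_of_monic_of_roots_card_eq hm hcard
    conv_lhs => rw [← h1]
    rw [Finset.prod_eq_multiset_prod, Multiset.toFinset_val, Multiset.dedup_eq_self.2 hnodup]



end

section

variable {k : Type*} [Field k] (p : ℕ) [Fact p.Prime] [CharP k p]

/-- no monomial `x^(p i + p - 1)` occurs in `P` -/
def NoTop {R : Type*} [Semiring R] (P : R[X]) : Prop := ∀ i : ℕ, P.coeff (i * p + (p - 1)) = 0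

lemma choose_pred (n : ℕ) : ((n.choose (p - 1) : ℕ) : k) = if n % p = p - 1 then 1 else 0 := by
  have hp := (Fact.out : p.Prime)
  have h1 := Choose.choose_modEq_choose_mod_mul_choose_div_nat (n := n) (k := p - 1) (p := p)
  have hlt : p - 1 < p := Nat.sub_lt hp.pos one_pos
  rw [Nat.mod_eq_of_lt hlt, Nat.div_eq_of_lt hlt, Nat.choose_zero_right, mul_one] at h1
  have h2 : ((n.choose (p - 1) : ℕ) : k) = (((n % p).choose (p - 1) : ℕ) : k) := by
    rw [CharP.natCast_eq_natCast' k p h1]
  rw [h2]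
  split_ifs with h
  · rw [h, Nat.choose_self, Nat.cast_one]
  · have : n % p < p - 1 := by
      have := Nat.mod_lt n hp.pos
      omega
    rw [Nat.choose_eq_zero_of_lt this, Nat.cast_zero]

/-- the coefficient of `x^(p-1)` in the expansion around `a` only involves monomials
`x^(p i + p - 1)` -/
lemma taylor_coeff_pred (P : k[X]) (a : k) : (taylor a P).coeff (p - 1)
    = ∑ i ∈ Finset.range (P.natDegree + 1), P.coeff (i * p + (p - 1)) * (a ^ p) ^ i := by
  have hp := (Fact.out : p.Prime)
  have hp1 : 1 ≤ p := hp.one_le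
  rw [taylor_coeff, hasseDeriv_apply, sum_over_range' _ _ (P.natDegree * p + p) (by nlinarith)]
  · rw [eval_finsetSum]
    simp only [eval_monomial]
    have h1 : ∀ n ∈ Finset.range (P.natDegree * p + p),
        ((n.choose (p - 1) : ℕ) : k) * P.coeff n * a ^ (n - (p - 1))
        = if n % p = p - 1 then P.coeff n * (a ^ p) ^ (n / p) else 0 := by
      intro n _
      rw [choose_pred]
      split_ifs with h
      · have : n = p * (n / p) + (p - 1) := by
          conv_lhs => rw [← Nat.div_add_mod n p, h]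
        have h2 : n - (p - 1) = p * (n / p) := by omega
        rw [h2, pow_mul, one_mul]
      · rw [zero_mul, zero_mul]
    rw [Finset.sum_congr rfl h1, ← Finset.sum_filter]
    refine Finset.sum_bij' (fun n _ => n / p) (fun i _ => i * p + (p - 1)) ?_ ?_ ?_ ?_ ?_
    · intro n hn
      rw [Finset.mem_filter, Finset.mem_range] at hn
      rw [Finset.mem_range]
      rw [Nat.div_lt_iff_lt_mul hp.pos]
      nlinarith [hn.1]
    · intro i hi
      rw [Finset.mem_range] at hi
      rw [Finset.mem_filter, Finset.mem_range]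
      constructor
      · have : i * p ≤ P.natDegree * p := Nat.mul_le_mul_right p (by omega)
        omega
      · rw [Nat.mul_comm, Nat.mul_add_mod, Nat.mod_eq_of_lt (by omega)]
    · intro n hn
      rw [Finset.mem_filter] at hn
      have := Nat.div_add_mod n p
      rw [hn.2] at this
      rw [mul_comm]; exact this
    · intro i _
      rw [mul_comm, Nat.mul_add_div hp.pos, Nat.div_eq_of_lt (by omega), add_zero]
    · intro n hn
      rw [Finset.mem_filter] at hn
      have := Nat.div_add_mod n p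
      rw [hn.2, mul_comm p] at this
      rw [this]
  · intro n; simp

lemma taylor_coeff_pred_of_noTop (P : k[X]) (a : k) (hP : NoTop p P) :
    (taylor a P).coeff (p - 1) = 0 := by
  rw [taylor_coeff_pred p P a]
  apply Finset.sum_eq_zero
  intro i _
  rw [hP i, zero_mul]

lemma exists_antideriv (P : k[X]) (hP : NoTop p P) :
    ∃ G : k[X], derivative G = P ∧ G.natDegree ≤ P.natDegree + 1 := by
  have hp1 : 1 ≤ p := (Fact.out : p.Prime).one_le
  refine ⟨P.sum fun n c => monomial (n + 1) (c / ((n : k) + 1)), ?_, ?_⟩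
  · have h1 : derivative (P.sum fun n c => monomial (n + 1) (c / ((n : k) + 1)))
        = P.sum fun n c => monomial n c := by
      rw [Polynomial.sum_def, Polynomial.sum_def, derivative_sum]
      refine Finset.sum_congr rfl fun n _ => ?_
      rw [derivative_monomial]
      simp only [Nat.add_sub_cancel, Nat.cast_add, Nat.cast_one]
      by_cases hn : (n : k) + 1 = 0
      · have h2 : ((n + 1 : ℕ) : k) = 0 := by push_cast; exact hn
        rw [CharP.cast_eq_zero_iff k p] at h2
        obtain ⟨i, hi⟩ := h2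
        obtain ⟨j, rfl⟩ : ∃ j, i = j + 1 := by
          rcases i with _ | j
          · omega
          · exact ⟨j, rfl⟩
        have h3 : n = j * p + (p - 1) := by
          rw [mul_add, mul_one, mul_comm] at hi; omega
        have h4 : P.coeff n = 0 := by rw [h3]; exact hP j
        rw [h4]; simp
      · rw [div_mul_cancel₀ _ hn]
    rw [h1]
    exact sum_monomial_eq P
  · rw [Polynomial.sum_def]
    apply natDegree_sum_le_of_forall_le
    intro n hn
    refine le_trans (natDegree_monomial_le _) ?_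
    have := le_natDegree_of_mem_supp n hn
    omega

end

section

variable {k : Type*} [Field k] (p : ℕ) [Fact p.Prime] [CharP k p]

lemma derivative_taylor (a : k) (G : k[X]) :
    derivative (taylor a G) = taylor a (derivative G) := by
  rw [taylor_apply, taylor_apply, derivative_comp]
  simp

lemma natCast_ne_zero_of_lt (n : ℕ) (h1 : 1 ≤ n) (h2 : n < p) : (n : k) ≠ 0 := by
  intro h
  rw [CharP.cast_eq_zero_iff k p] at h
  have := Nat.le_of_dvd (by omega) h
  omega

/-- if `G' = P` and `P` vanishes to order `N` at `a` then `G - G(a)` vanishes to order `N+1` -/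
lemma coeff_taylor_antideriv (G P : k[X]) (hG : derivative G = P) (a : k) (N : ℕ) (hN : N < p)
    (hP : (X - C a) ^ N ∣ P) (i : ℕ) (hi1 : 1 ≤ i) (hi2 : i ≤ N) : (taylor a G).coeff i = 0 := by
  obtain ⟨Q, hQ⟩ := hP
  obtain ⟨j, rfl⟩ : ∃ j, i = j + 1 := ⟨i - 1, by omega⟩
  have h1 : (derivative (taylor a G)).coeff j = (taylor a G).coeff (j + 1) * ((j : k) + 1) :=
    coeff_derivative _ _
  have h2 : (derivative (taylor a G)).coeff j = 0 := by
    rw [derivative_taylor, hG, hQ, taylor_mul, taylor_pow]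
    have h3 : taylor a (X - C a) = X := by simp
    rw [h3, coeff_X_pow_mul', if_neg (by omega)]
  rw [h2] at h1
  have h4 : ((j : k) + 1) ≠ 0 := by
    have := natCast_ne_zero_of_lt (k := k) p (j + 1) (by omega) (by omega)
    push_cast at this; exact this
  rcases mul_eq_zero.1 h1.symm with h | h
  · exact h
  · exact absurd h h4

lemma pointwise (hp2 : 2 < p) (g : ℕ) (Λ : Finset k) (hΛ : Λ.card = 2 * g) (μ : k) (hμ : μ ∉ Λ)
    (h f u v : k[X]) (hh : h = ∏ l ∈ Λ, (X - C l)) (hf : f = (X - C μ) * h)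
    (hu : u.degree < g) (hv : v.degree < g) (N : ℕ) (hN : 2 * N + 1 = p)
    (h1 : NoTop p (u * f ^ N))
    (h2 : NoTop p (f ^ (N - 1) * h * ((X - C μ) * v - C (N : k) * u))) : u.eval μ = 0 := by
  classical
  by_contra hne
  have hu0 : u ≠ 0 := by rintro rfl; simp at hne
  have hN1 : 1 ≤ N := by omega
  have hug : u.natDegree < g := (natDegree_lt_iff_degree_lt hu0).2 hu
  have hvg : v.natDegree ≤ g - 1 := by
    rcases eq_or_ne v 0 with rfl | hv0
    · simp
    · have := (natDegree_lt_iff_degree_lt hv0).2 hv; omega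
  have hhd : h.natDegree = 2 * g := by
    rw [hh, natDegree_prod_of_monic _ _ (fun l _ => monic_X_sub_C l)]
    simp [hΛ]
  have hfd : f.natDegree ≤ 2 * g + 1 := by
    rw [hf]
    refine le_trans natDegree_mul_le ?_
    rw [natDegree_X_sub_C, hhd]; omega
  obtain ⟨G, hG, hGd⟩ := exists_antideriv p _ h1
  obtain ⟨V, hV⟩ : ∃ V, V = f ^ (N - 1) * h * ((X - C μ) * v - C (N : k) * u) := ⟨_, rfl⟩
  rw [← hV] at h2
  -- degree bounds
  have hPd : (u * f ^ N).natDegree ≤ (g - 1) + N * (2 * g + 1) := by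
    refine le_trans natDegree_mul_le ?_
    have := natDegree_pow_le_of_le N hfd
    omega
  have hVd : V.natDegree ≤ (N - 1) * (2 * g + 1) + 2 * g + g := by
    rw [hV]
    refine le_trans natDegree_mul_le ?_
    have e1 : (f ^ (N - 1) * h).natDegree ≤ (N - 1) * (2 * g + 1) + 2 * g := by
      refine le_trans natDegree_mul_le ?_
      have := natDegree_pow_le_of_le (N - 1) hfd
      omega
    have e2 : ((X - C μ) * v - C (N : k) * u).natDegree ≤ g := by
      refine (natDegree_sub_le _ _).trans (max_le ?_ ?_)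
      · refine le_trans natDegree_mul_le ?_
        rw [natDegree_X_sub_C]; omega
      · refine le_trans (natDegree_C_mul_le _ _) (by omega)
    omega
  obtain ⟨W, hW⟩ : ∃ W, W = G * V := ⟨_, rfl⟩
  have hWd : W.natDegree < 2 * g * p + (p - 1) := by
    rw [hW]
    refine lt_of_le_of_lt natDegree_mul_le ?_
    have e3 : (g - 1) + N * (2 * g + 1) + 1 + ((N - 1) * (2 * g + 1) + 2 * g + g)
        < 2 * g * p + (p - 1) := by
      obtain ⟨M, rfl⟩ : ∃ M, N = M + 1 := ⟨N - 1, by omega⟩
      obtain ⟨g', rfl⟩ : ∃ g', g = g' + 1 := ⟨g - 1, by omega⟩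
      rw [← hN]
      simp only [Nat.add_sub_cancel]
      nlinarith
    omega
  -- the polynomial Q
  obtain ⟨Q, hQ⟩ : ∃ Q : k[X], Q = ∑ i ∈ Finset.range (W.natDegree + 1),
    monomial i (W.coeff (i * p + (p - 1))) := ⟨_, rfl⟩
  have hQeval : ∀ a : k, Q.eval (a ^ p) = (taylor a W).coeff (p - 1) := by
    intro a
    rw [taylor_coeff_pred p W a, hQ, eval_finsetSum]
    simp only [eval_monomial]
  have hQcoeff : ∀ n, 2 * g ≤ n → Q.coeff n = 0 := by
    intro n hn
    rw [hQ, finsetSum_coeff]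
    apply Finset.sum_eq_zero
    intro i _
    rw [coeff_monomial]
    split_ifs with hin
    · rw [hin]
      apply coeff_eq_zero_of_natDegree_lt
      have : 2 * g * p ≤ n * p := Nat.mul_le_mul_right p hn
      omega
    · rfl
  have hp' : p - 1 = 2 * N := by omega
  -- local computation at points of Λ
  have hloc : ∀ a ∈ Λ, (taylor a W).coeff (p - 1) = 0 := by
    intro a ha
    have hdh : (X - C a) ∣ h := by rw [hh]; exact Finset.dvd_prod_of_mem _ ha
    have hdf : (X - C a) ∣ f := by rw [hf]; exact hdh.mul_left _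
    have hP : (X - C a) ^ N ∣ u * f ^ N := (pow_dvd_pow_of_dvd hdf N).mul_left _
    have hV' : (X - C a) ^ N ∣ V := by
      rw [hV]
      apply Dvd.dvd.mul_right
      have : N = (N - 1) + 1 := by omega
      rw [this, pow_succ, Nat.add_sub_cancel]
      exact mul_dvd_mul (pow_dvd_pow_of_dvd hdf _) hdh
    obtain ⟨V', hV'⟩ := hV'
    rw [hW, taylor_mul, coeff_mul]
    apply Finset.sum_eq_zero
    rintro ⟨i, j⟩ hij
    rw [Finset.HasAntidiagonal.mem_antidiagonal] at hij
    simp only at hij ⊢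
    by_cases hi0 : i = 0
    · have : j = p - 1 := by omega
      rw [this, taylor_coeff_pred_of_noTop p V a h2, mul_zero]
    · by_cases hiN : i ≤ N
      · rw [coeff_taylor_antideriv p G _ hG a N (by omega) hP i (by omega) hiN, zero_mul]
      · have hj : (taylor a V).coeff j = 0 := by
          rw [hV', taylor_mul, taylor_pow]
          have h3 : taylor a (X - C a) = X := by simp
          rw [h3, coeff_X_pow_mul', if_neg (by omega)]
        rw [hj, mul_zero]
  have hQ0 : Q = 0 := by
    by_contra hQne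
    have hinj : Function.Injective (fun a : k => a ^ p) := by
      intro a b hab
      exact frobenius_inj k p (by simpa [frobenius_def] using hab)
    apply hQne
    apply eq_zero_of_natDegree_lt_card_of_eval_eq_zero' Q (Λ.image (fun a => a ^ p))
    · intro b hb
      obtain ⟨a, ha, rfl⟩ := Finset.mem_image.1 hb
      rw [hQeval, hloc a ha]
    · rw [Finset.card_image_of_injective _ hinj, hΛ]
      rw [natDegree_lt_iff_degree_lt hQne, degree_lt_iff_coeff_zero]
      exact hQcoeff
  have hμW : (taylor μ W).coeff (p - 1) = 0 := by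
    rw [← hQeval, hQ0, eval_zero]
  -- local computation at μ
  have hdf : (X - C μ) ∣ f := ⟨h, hf⟩
  have hP : (X - C μ) ^ N ∣ u * f ^ N := (pow_dvd_pow_of_dvd hdf N).mul_left _
  have hhμ : h.eval μ ≠ 0 := by
    rw [hh, eval_prod, Finset.prod_ne_zero_iff]
    intro l hl
    rw [eval_sub, eval_X, eval_C]
    intro h0
    apply hμ
    rw [sub_eq_zero.1 h0]; exact hl
  have hτ : taylor μ (X - C μ) = X := by simp
  have hτf : taylor μ f = X * taylor μ h := by rw [hf, taylor_mul, hτ]
  have hτV : taylor μ V = X ^ (N - 1) * ((taylor μ h) ^ N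
      * (X * taylor μ v - C (N : k) * taylor μ u)) := by
    rw [hV, taylor_mul, taylor_mul, taylor_pow, map_sub, taylor_mul, taylor_mul, hτ, taylor_C, hτf,
      mul_pow]
    obtain ⟨M, rfl⟩ : ∃ M, N = M + 1 := ⟨N - 1, by omega⟩
    simp only [Nat.add_sub_cancel]
    ring
  have hsum : (taylor μ W).coeff (p - 1)
      = (taylor μ G).coeff (N + 1) * (taylor μ V).coeff (N - 1) := by
    rw [hW, taylor_mul, coeff_mul, Finset.sum_eq_single (N + 1, N - 1)]
    · rintro ⟨i, j⟩ hij hne'
      rw [Finset.HasAntidiagonal.mem_antidiagonal] at hij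
      simp only at hij ⊢
      by_cases hi0 : i = 0
      · have : j = p - 1 := by omega
        rw [this, taylor_coeff_pred_of_noTop p V μ h2, mul_zero]
      · by_cases hiN : i ≤ N
        · rw [coeff_taylor_antideriv p G _ hG μ N (by omega) hP i (by omega) hiN, zero_mul]
        · have hiN' : i ≠ N + 1 := by
            intro h0
            apply hne'
            rw [h0]
            congr 1
            omega
          rw [hτV, coeff_X_pow_mul', if_neg (by omega), mul_zero]
    · intro hnot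
      exact absurd (Finset.HasAntidiagonal.mem_antidiagonal.2 (by omega)) hnot
  have hVc : (taylor μ V).coeff (N - 1) = h.eval μ ^ N * (-(N : k) * u.eval μ) := by
    rw [hτV, coeff_X_pow_mul', if_pos le_rfl, Nat.sub_self, coeff_zero_eq_eval_zero]
    simp only [eval_mul, eval_pow, eval_sub, eval_X, eval_C, taylor_eval]
    ring_nf
  have hGc : (taylor μ G).coeff (N + 1) * ((N : k) + 1) = u.eval μ * h.eval μ ^ N := by
    have e1 : (derivative (taylor μ G)).coeff N = (taylor μ G).coeff (N + 1) * ((N : k) + 1) :=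
      coeff_derivative _ _
    rw [← e1, derivative_taylor, hG, taylor_mul, taylor_pow, hτf, mul_pow]
    have e2 : taylor μ u * (X ^ N * (taylor μ h) ^ N) = X ^ N * (taylor μ u * (taylor μ h) ^ N) := by
      ring
    rw [e2, coeff_X_pow_mul', if_pos le_rfl, Nat.sub_self, coeff_zero_eq_eval_zero]
    simp only [eval_mul, eval_pow, taylor_eval, zero_add]
  have hNk : (N : k) ≠ 0 := natCast_ne_zero_of_lt p N hN1 (by omega)
  rw [hsum, hVc] at hμW
  have : (u.eval μ * h.eval μ ^ N) * (h.eval μ ^ N * (-(N : k) * u.eval μ)) = 0 := by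
    rw [← hGc]
    linear_combination ((N : k) + 1) * hμW
  have h5 : (u.eval μ * h.eval μ ^ N) * (h.eval μ ^ N * (-(N : k) * u.eval μ)) ≠ 0 :=
    mul_ne_zero (mul_ne_zero hne (pow_ne_zero _ hhμ))
      (mul_ne_zero (pow_ne_zero _ hhμ) (mul_ne_zero (neg_ne_zero.2 hNk) hne))
  exact h5 this

end

section

variable {k : Type*} [Field k]

/-- coefficientwise derivative of a bivariate polynomial (derivative in the inner variable) -/
noncomputable def Dt (P : k[X][X]) : k[X][X] := P.sum fun n a => monomial n (derivative a)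

lemma coeff_Dt (P : k[X][X]) (n : ℕ) : (Dt P).coeff n = derivative (P.coeff n) := by
  unfold Dt
  rw [Polynomial.sum_def, finsetSum_coeff]
  simp only [coeff_monomial]
  rw [Finset.sum_ite_eq']
  split_ifs with h
  · rfl
  · rw [notMem_support_iff.1 h, derivative_zero]

lemma Dt_mul (P Q : k[X][X]) : Dt (P * Q) = Dt P * Q + P * Dt Q := by
  ext1 n
  rw [coeff_Dt, coeff_add, coeff_mul, coeff_mul, coeff_mul, derivative_sum,
    ← Finset.sum_add_distrib]
  refine Finset.sum_congr rfl fun x _ => ?_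
  rw [derivative_mul, coeff_Dt, coeff_Dt]

lemma Dt_sub (P Q : k[X][X]) : Dt (P - Q) = Dt P - Dt Q := by
  ext1 n
  rw [coeff_Dt, coeff_sub, coeff_sub, coeff_Dt, coeff_Dt, derivative_sub]

lemma Dt_X : Dt (X : k[X][X]) = 0 := by
  ext1 n
  rw [coeff_Dt, coeff_X, coeff_zero]
  split_ifs <;> simp

lemma Dt_C (a : k[X]) : Dt (C a : k[X][X]) = C (derivative a) := by
  ext1 n
  rw [coeff_Dt, coeff_C, coeff_C]
  split_ifs <;> simp

lemma Dt_map_C (h : k[X]) : Dt (h.map C : k[X][X]) = 0 := by
  ext1 n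
  rw [coeff_Dt, coeff_map, derivative_C, coeff_zero]

lemma Dt_pow (P : k[X][X]) (n : ℕ) : Dt (P ^ n) = (n : k[X][X]) * P ^ (n - 1) * Dt P := by
  induction n with
  | zero =>
    have : (1 : k[X][X]) = C 1 := C_1.symm
    rw [pow_zero, this, Dt_C]; simp
  | succ m ih =>
    rw [pow_succ, Dt_mul, ih]
    rcases m with _ | m
    · simp
    · simp only [Nat.add_sub_cancel]; push_cast; ring

lemma degree_Dt_le (P : k[X][X]) : (Dt P).degree ≤ P.degree := by
  rw [degree_le_iff_coeff_zero]
  intro n hn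
  rw [coeff_Dt, coeff_eq_zero_of_degree_lt hn, derivative_zero]

variable (p : ℕ) [Fact p.Prime] [CharP k p]

lemma noTop_Dt (P : k[X][X]) (hP : NoTop p P) : NoTop p (Dt P) := by
  intro i
  rw [coeff_Dt, hP i, derivative_zero]

omit [Fact p.Prime] [CharP k p] in
lemma noTop_map (P : k[X][X]) (φ : k[X] →+* k) (hP : NoTop p P) : NoTop p (P.map φ) := by
  intro i
  rw [coeff_map, hP i, map_zero]

/-- `x - t` -/
noncomputable def L : k[X][X] := X - C X

lemma Dt_L : Dt (L : k[X][X]) = -1 := by
  unfold L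
  rw [Dt_sub, Dt_X, Dt_C, derivative_X, C_1, zero_sub]

/-- the bivariate family -/
noncomputable def F (h : k[X]) : k[X][X] := L * h.map C

lemma Dt_F (h : k[X]) : Dt (F h) = -h.map C := by
  unfold F
  rw [Dt_mul, Dt_L, Dt_map_C]; ring

lemma Dt_mul_F_pow (h : k[X]) (U : k[X][X]) (N : ℕ) (hN : 1 ≤ N) :
    Dt (U * F h ^ N) = F h ^ (N - 1) * h.map C * (L * Dt U - C (N : k[X]) * U) := by
  obtain ⟨M, rfl⟩ : ∃ M, N = M + 1 := ⟨N - 1, by omega⟩
  rw [Dt_mul, Dt_pow, Dt_F]
  simp only [Nat.add_sub_cancel]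
  have : F h = L * h.map C := rfl
  have h2 : (C ((M + 1 : ℕ) : k[X]) : k[X][X]) = ((M + 1 : ℕ) : k[X][X]) := by simp
  rw [pow_succ, h2, this]
  ring

lemma map_F (h : k[X]) (μ : k) : (F h).map (evalRingHom μ) = (X - C μ) * h := by
  unfold F L
  rw [Polynomial.map_mul, Polynomial.map_sub, map_X, map_C, Polynomial.map_map]
  have : (evalRingHom μ).comp C = RingHom.id k := by ext x; simp
  rw [this, Polynomial.map_id]
  simp

variable [IsAlgClosed k]

lemma L_dvd (hp2 : 2 < p) (g : ℕ) (Λ : Finset k) (hΛ : Λ.card = 2 * g) (h : k[X])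
    (hh : h = ∏ l ∈ Λ, (X - C l)) (N : ℕ) (hN : 2 * N + 1 = p) (U : k[X][X])
    (hU : U.degree < g) (hU' : NoTop p (U * F h ^ N)) : L ∣ U := by
  classical
  unfold L
  rw [dvd_iff_isRoot, IsRoot.def]
  have hev : ∀ μ : k, (U.eval X).eval μ = (U.map (evalRingHom μ)).eval μ := by
    intro μ
    have h1 := hom_eval₂ U (RingHom.id k[X]) (evalRingHom μ) X
    rw [RingHom.comp_id, coe_evalRingHom, eval_X] at h1
    rw [eval_map, ← h1]
    rfl
  by_contra hne
  have hfin : {μ : k | (U.eval X).eval μ = 0}.Finite := by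
    refine ((U.eval X).roots.toFinset.finite_toSet).subset ?_
    intro μ hμ
    simp only [Finset.mem_coe, Multiset.mem_toFinset]
    exact (mem_roots hne).2 hμ
  have huniv : (Set.univ : Set k) ⊆ {μ : k | (U.eval X).eval μ = 0} ∪ (Λ : Set k) := by
    intro μ _
    by_cases hμ : μ ∈ Λ
    · exact Or.inr hμ
    · left
      show (U.eval X).eval μ = 0
      rw [hev]
      have hdeg : ∀ P : k[X][X], P.degree < g → (P.map (evalRingHom μ)).degree < g :=
        fun P hP => lt_of_le_of_lt degree_map_le hP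
      apply pointwise p hp2 g Λ hΛ μ hμ h _ (U.map (evalRingHom μ)) ((Dt U).map (evalRingHom μ)) hh rfl
        (hdeg U hU) (hdeg _ (lt_of_le_of_lt (degree_Dt_le U) hU)) N hN
      · have := noTop_map p _ (evalRingHom μ) hU'
        rwa [Polynomial.map_mul, Polynomial.map_pow, map_F] at this
      · have := noTop_map p _ (evalRingHom μ) (noTop_Dt p _ hU')
        rw [Dt_mul_F_pow h U N (by omega)] at this
        rw [Polynomial.map_mul, Polynomial.map_mul, Polynomial.map_pow, map_F, Polynomial.map_sub,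
          Polynomial.map_mul, Polynomial.map_mul, map_C, Polynomial.map_map] at this
        have e1 : (evalRingHom μ).comp C = RingHom.id k := by ext x; simp
        have e2 : (L : k[X][X]).map (evalRingHom μ) = X - C μ := by
          unfold L; simp
        rw [e1, Polynomial.map_id, e2] at this
        simpa using this
  exact Set.infinite_univ ((hfin.union Λ.finite_toSet).subset huniv)

lemma L_pow_dvd (hp2 : 2 < p) (g : ℕ) (Λ : Finset k) (hΛ : Λ.card = 2 * g) (h : k[X])
    (hh : h = ∏ l ∈ Λ, (X - C l)) (N : ℕ) (hN : 2 * N + 1 = p) (m : ℕ) (hm : m ≤ N + 1) :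
    ∀ U : k[X][X], U.degree < g → NoTop p (U * F h ^ N) → L ^ m ∣ U := by
  have hN1 : 1 ≤ N := by omega
  have hLmonic : (L : k[X][X]).Monic := monic_X_sub_C X
  have hL0 : (L : k[X][X]) ≠ 0 := hLmonic.ne_zero
  induction m with
  | zero => intro U _ _; simp
  | succ m ih =>
    intro U hU hU'
    rcases Nat.eq_zero_or_pos m with rfl | hmpos
    · rw [zero_add, pow_one]
      exact L_dvd p hp2 g Λ hΛ h hh N hN U hU hU'
    · obtain ⟨W, hW⟩ := ih (by omega) U hU hU'
      obtain ⟨m', rfl⟩ : ∃ m', m = m' + 1 := ⟨m - 1, by omega⟩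
      obtain ⟨W1, hW1⟩ : ∃ W1, W1 = L ^ m' * W := ⟨_, rfl⟩
      have hUW1 : U = L * W1 := by rw [hW, hW1]; ring
      -- the next element of the kernel
      obtain ⟨V, hV⟩ : ∃ V, V = Dt U - C (N : k[X]) * W1 := ⟨_, rfl⟩
      have hVdeg : V.degree < g := by
        have e1 : W1.degree < g := by
          refine lt_of_le_of_lt ?_ hU
          rw [hUW1, hLmonic.degree_mul_comm, hLmonic.degree_mul]
          have : (L : k[X][X]).degree = 1 := degree_X_sub_C X
          rw [this]
          exact le_add_of_nonneg_right (by norm_num)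
        rw [hV]
        refine lt_of_le_of_lt (degree_sub_le _ _) (max_lt ?_ ?_)
        · exact lt_of_le_of_lt (degree_Dt_le U) hU
        · exact lt_of_le_of_lt ((degree_mul_le _ _).trans (add_le_of_nonpos_left degree_C_le)) e1
      have hVtop : NoTop p (V * F h ^ N) := by
        have e1 := noTop_Dt p _ hU'
        rw [Dt_mul_F_pow h U N hN1] at e1
        have e2 : F h ^ (N - 1) * h.map C * (L * Dt U - C (N : k[X]) * U) = V * F h ^ N := by
          have e3 : F h ^ N = F h ^ (N - 1) * (L * h.map C) := by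
            obtain ⟨M, rfl⟩ : ∃ M, N = M + 1 := ⟨N - 1, by omega⟩
            rw [pow_succ, Nat.add_sub_cancel]; rfl
          rw [e3, hV]
          nth_rewrite 2 [hUW1]
          ring
        rwa [e2] at e1
      have hdvd := ih (by omega) V hVdeg hVtop
      have hVeq : V = L ^ m' * (L * Dt W - C ((m' + 1 + N : ℕ) : k[X]) * W) := by
        rw [hV, hW1, hW, Dt_mul, Dt_pow, Dt_L]
        simp only [Nat.add_sub_cancel]
        have e4 : (C ((m' + 1 + N : ℕ) : k[X]) : k[X][X]) = ((m' + 1 + N : ℕ) : k[X][X]) := by simp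
        have e5 : (C (N : k[X]) : k[X][X]) = (N : k[X][X]) := by simp
        rw [e4, e5]
        push_cast
        ring
      rw [hVeq, pow_succ, mul_dvd_mul_iff_left (pow_ne_zero _ hL0)] at hdvd
      have hdvd2 : L ∣ C ((m' + 1 + N : ℕ) : k[X]) * W :=
        (dvd_sub_right (dvd_mul_right L (Dt W))).1 hdvd
      have hunit : IsUnit (C ((m' + 1 + N : ℕ) : k[X]) : k[X][X]) := by
        have e6 : ((m' + 1 + N : ℕ) : k) ≠ 0 := natCast_ne_zero_of_lt p _ (by omega) (by omega)
        have e7 : ((m' + 1 + N : ℕ) : k[X]) = C ((m' + 1 + N : ℕ) : k) := by simp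
        rw [e7]
        exact isUnit_C.2 (isUnit_C.2 (isUnit_iff_ne_zero.2 e6))
      have hdvd3 : L ∣ W := by
        rwa [hunit.dvd_mul_left] at hdvd2
      rw [hW, pow_succ]
      exact mul_dvd_mul_left _ hdvd3

end

section

lemma mulVec_eq {R : Type*} [CommRing R] (p g : ℕ) (hp : 1 ≤ p) (f : R[X]) (a : Fin g → R)
    (i : Fin g) : (hasseWitt p g f).mulVec a i
      = ((∑ j : Fin g, C (a j) * X ^ (j : ℕ)) * f ^ ((p - 1) / 2)).coeff ((i : ℕ) * p + (p - 1)) := by
  rw [Finset.sum_mul, finsetSum_coeff, Matrix.mulVec, dotProduct]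
  refine Finset.sum_congr rfl fun j _ => ?_
  rw [hasseWitt, Matrix.of_apply]
  have h1 : p * ((i : ℕ) + 1) = ((i : ℕ) * p + (p - 1)) + 1 := by
    rw [mul_add, mul_one, mul_comm]; omega
  have h2 : (X ^ ((j : ℕ) + 1) * f ^ ((p - 1) / 2) : R[X])
      = X * (X ^ (j : ℕ) * f ^ ((p - 1) / 2)) := by ring
  rw [h1, h2, coeff_X_mul, mul_assoc, coeff_C_mul, mul_comm]

lemma degree_sum_lt {R : Type*} [CommRing R] (g : ℕ) (a : Fin g → R) :
    (∑ j : Fin g, C (a j) * X ^ (j : ℕ)).degree < (g : WithBot ℕ) := by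
  rcases Nat.eq_zero_or_pos g with rfl | hg
  · simp only [Finset.univ_eq_empty, Finset.sum_empty, degree_zero]
    exact WithBot.bot_lt_coe 0
  · refine lt_of_le_of_lt (degree_sum_le _ _) ?_
    rw [Finset.sup_lt_iff (by exact WithBot.bot_lt_coe g)]
    intro j _
    refine lt_of_le_of_lt (degree_C_mul_X_pow_le _ _) ?_
    exact_mod_cast j.2

lemma coeff_sum_fin {R : Type*} [CommRing R] (g : ℕ) (a : Fin g → R) (j : Fin g) :
    (∑ j : Fin g, C (a j) * X ^ (j : ℕ)).coeff (j : ℕ) = a j := by
  rw [finsetSum_coeff, Finset.sum_eq_single j]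
  · rw [coeff_C_mul_X_pow, if_pos rfl]
  · intro i _ hij
    rw [coeff_C_mul_X_pow, if_neg]
    intro h; exact hij (Fin.ext h).symm
  · intro h; exact absurd (Finset.mem_univ j) h

lemma noTop_of_mulVec {R : Type*} [CommRing R] (p g N : ℕ) (hN : 2 * N + 1 = p)
    (f : R[X]) (hf : f.natDegree ≤ 2 * g + 1) (hg : 1 ≤ g) (a : Fin g → R)
    (h : (hasseWitt p g f).mulVec a = 0) :
    NoTop p ((∑ j : Fin g, C (a j) * X ^ (j : ℕ)) * f ^ N) := by
  intro i
  have hN' : N = (p - 1) / 2 := by omega
  by_cases hi : i < g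
  · have := congrFun h ⟨i, hi⟩
    rw [mulVec_eq p g (by omega), ← hN'] at this
    simpa using this
  · apply coeff_eq_zero_of_natDegree_lt
    have h1 : (∑ j : Fin g, C (a j) * X ^ (j : ℕ) : R[X]).natDegree ≤ g - 1 := by
      rw [natDegree_le_iff_coeff_eq_zero]
      intro n hn
      exact (degree_lt_iff_coeff_zero _ _).1 (degree_sum_lt g a) n (by omega)
    have h2 := natDegree_pow_le_of_le N hf
    have h3 := (natDegree_mul_le (p := (∑ j : Fin g, C (a j) * X ^ (j : ℕ) : R[X])) (q := f ^ N))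
    have h4 : g * p ≤ i * p := Nat.mul_le_mul_right p (by omega)
    have h5 : (g - 1) + N * (2 * g + 1) < g * p + (p - 1) := by
      obtain ⟨g', rfl⟩ : ∃ g', g = g' + 1 := ⟨g - 1, by omega⟩
      rw [← hN]
      simp only [Nat.add_sub_cancel]
      nlinarith
    omega

variable {k : Type*} [Field k] (p : ℕ) [Fact p.Prime] [CharP k p]

lemma noTop_of_cart [PerfectRing k p] (P : k[X]) (h : cart p P = 0) : NoTop p P := by
  intro i
  have h1 : (cart p P).coeff i = 0 := by rw [h, coeff_zero]
  rw [coeff_cart] at h1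
  exact (map_eq_zero_iff _ (frobeniusEquiv k p).symm.injective).1 h1

lemma sum_coeff_fin (g : ℕ) (u : k[X]) (hu : u.degree < g) :
    (∑ j : Fin g, C (u.coeff j) * X ^ (j : ℕ)) = u := by
  rw [Fin.sum_univ_eq_sum_range (fun j => C (u.coeff j) * X ^ j) g]
  have h1 := as_sum_range' u
  rcases eq_or_ne u 0 with rfl | hu0
  · simp
  · exact (as_sum_range_C_mul_X_pow' (p := u) ((natDegree_lt_iff_degree_lt hu0).2 hu)).symm

lemma det_eq_zero_of_exact (g : ℕ) (f u : k[X]) (hu : u ≠ 0) (hud : u.degree < g)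
    (h : NoTop p (u * f ^ ((p - 1) / 2))) : (hasseWitt p g f).det = 0 := by
  rw [← Matrix.exists_mulVec_eq_zero_iff]
  refine ⟨fun j => u.coeff j, ?_, ?_⟩
  · intro h0
    apply hu
    rw [← sum_coeff_fin g u hud]
    apply Finset.sum_eq_zero
    intro j _
    have := congrFun h0 j
    simp only [Pi.zero_apply] at this
    rw [this, C_0, zero_mul]
  · funext i
    rw [mulVec_eq p g (Fact.out : p.Prime).one_le, sum_coeff_fin g u hud, h]
    rfl

theorem positive [IsAlgClosed k] (hp2 : 2 < p) (g : ℕ) (hg : 1 ≤ g) (hgp : 2 * g ≤ p + 1)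
    (Λ : Finset k) (hΛ : Λ.card = 2 * g) :
    ∃ μ ∉ Λ, (hasseWitt p g ((X - C μ) * ∏ l ∈ Λ, (X - C l))).det ≠ 0 := by
  classical
  by_contra hcon
  push Not at hcon
  have hodd : Odd p := (Fact.out : p.Prime).odd_of_ne_two (by omega)
  obtain ⟨N, hN⟩ := hodd
  have hN' : (p - 1) / 2 = N := by omega
  obtain ⟨h, hh⟩ : ∃ h : k[X], h = ∏ l ∈ Λ, (X - C l) := ⟨_, rfl⟩
  rw [← hh] at hcon
  -- generic determinant
  have hmap : ∀ μ : k, (hasseWitt p g (F h)).map (evalRingHom μ)
      = hasseWitt p g ((X - C μ) * h) := by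
    intro μ
    ext i j
    rw [Matrix.map_apply, hasseWitt, hasseWitt, Matrix.of_apply, Matrix.of_apply, ← map_F h μ,
      ← Polynomial.map_pow, ← map_X (evalRingHom μ), ← Polynomial.map_pow, ← Polynomial.map_mul,
      coeff_map]
  have hdet : (hasseWitt p g (F h)).det = 0 := by
    by_contra hne
    have hfin : {μ : k | ((hasseWitt p g (F h)).det).eval μ = 0}.Finite := by
      refine (((hasseWitt p g (F h)).det).roots.toFinset.finite_toSet).subset ?_
      intro μ hμ
      simp only [Finset.mem_coe, Multiset.mem_toFinset]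
      exact (mem_roots hne).2 hμ
    have huniv : (Set.univ : Set k) ⊆ {μ : k | ((hasseWitt p g (F h)).det).eval μ = 0}
        ∪ (Λ : Set k) := by
      intro μ _
      by_cases hμ : μ ∈ Λ
      · exact Or.inr hμ
      · left
        show ((hasseWitt p g (F h)).det).eval μ = 0
        have h1 := RingHom.map_det (evalRingHom μ) (hasseWitt p g (F h))
        rw [RingHom.mapMatrix_apply, hmap, hcon μ hμ] at h1
        exact h1
    exact Set.infinite_univ ((hfin.union Λ.finite_toSet).subset huniv)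
  obtain ⟨a, ha, hMa⟩ := Matrix.exists_mulVec_eq_zero_iff.2 hdet
  have hhd : h.natDegree = 2 * g := by
    rw [hh, natDegree_prod_of_monic _ _ (fun l _ => monic_X_sub_C l)]
    simp [hΛ]
  have hFd : (F h).natDegree ≤ 2 * g + 1 := by
    unfold F L
    refine le_trans natDegree_mul_le ?_
    rw [natDegree_X_sub_C]
    have := natDegree_map_le (p := h) (f := (C : k →+* k[X]))
    omega
  have hU' := noTop_of_mulVec p g N (by omega) (F h) hFd hg a hMa
  have hU := degree_sum_lt g a
  obtain ⟨U, hUdef⟩ : ∃ U : k[X][X], U = ∑ j : Fin g, C (a j) * X ^ (j : ℕ) := ⟨_, rfl⟩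
  rw [← hUdef] at hU hU'
  have hU0 : U ≠ 0 := by
    intro h0
    apply ha
    funext j
    rw [← coeff_sum_fin g a j, ← hUdef, h0, coeff_zero, Pi.zero_apply]
  have hdvd := L_pow_dvd p hp2 g Λ hΛ h hh N (by omega) (N + 1) le_rfl U hU hU'
  have h1 := natDegree_le_of_dvd hdvd hU0
  have h2 : (L ^ (N + 1) : k[X][X]).natDegree = N + 1 := by
    unfold L; rw [natDegree_pow, natDegree_X_sub_C, mul_one]
  have h3 := (natDegree_lt_iff_degree_lt hU0).2 hU
  omega

theorem negative [IsAlgClosed k] (hp2 : 2 < p) (g : ℕ) (hg : p + 3 ≤ 2 * g) :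
    ∃ Λ : Finset k, Λ.card = 2 * g ∧ ∀ μ ∉ Λ,
      (hasseWitt p g ((X - C μ) * ∏ l ∈ Λ, (X - C l))).det = 0 := by
  classical
  have hN := two_mul_half p hp2
  obtain ⟨h, w, hmon, hsep, hdeg, hw, hwd, hcart⟩ := exists_family (k := k) p hp2 g hg
  obtain ⟨Λ, hΛ, hprod⟩ := monic_sep_eq_prod h hmon hsep
  refine ⟨Λ, by rw [hΛ, hdeg], fun μ _ => ?_⟩
  rw [← hprod]
  set N := (p - 1) / 2 with hNdef
  have hu : (X - C μ) ^ (N + 1) * w ≠ 0 := mul_ne_zero (pow_ne_zero _ (X_sub_C_ne_zero μ)) hw
  have hud : ((X - C μ) ^ (N + 1) * w).degree < (g : WithBot ℕ) := by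
    rw [degree_eq_natDegree hu, natDegree_mul (pow_ne_zero _ (X_sub_C_ne_zero μ)) hw,
      natDegree_pow, natDegree_X_sub_C]
    exact_mod_cast (by omega)
  have hu0 : cart p ((X - C μ) ^ (N + 1) * w * ((X - C μ) * h) ^ ((p - 1) / 2)) = 0 := by
    have h1 : (X - C μ) ^ (N + 1) * w * ((X - C μ) * h) ^ ((p - 1) / 2)
        = (X - C μ) ^ p * (w * h ^ ((p - 1) / 2)) := by
      have h2 : (X - C μ) ^ p = (X - C μ) ^ (2 * N + 1) := by rw [hN]
      rw [← hNdef, mul_pow, h2]
      ring
    rw [h1, cart_pow_mul, ← hNdef, hcart, mul_zero]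
  exact det_eq_zero_of_exact p g _ _ hu hud (noTop_of_cart p _ hu0)

theorem classification [IsAlgClosed k] (hp2 : 2 < p) (g : ℕ) (hg : 1 ≤ g) :
    (∀ Λ : Finset k, Λ.card = 2 * g →
      ∃ μ ∉ Λ, (hasseWitt p g ((X - C μ) * ∏ l ∈ Λ, (X - C l))).det ≠ 0) ↔ 2 * g ≤ p + 1 := by
  constructor
  · intro h
    by_contra hcon
    have hodd : Odd p := (Fact.out : p.Prime).odd_of_ne_two (by omega)
    obtain ⟨N, hN⟩ := hodd
    obtain ⟨Λ, hΛ, hneg⟩ := negative (k := k) p hp2 g (by omega)
    obtain ⟨μ, hμ, hdet⟩ := h Λ hΛ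
    exact hdet (hneg μ hμ)
  · intro h Λ hΛ
    exact positive p hp2 g hg h Λ hΛ

end

/-- For `k` algebraically closed of characteristic `p > 2` and `g ≥ 1`: every set `Λ` of `2 g`
distinct elements of `k` admits `μ ∉ Λ` such that the Hasse-Witt matrix of
`y^2 = (x - μ) ∏_{l ∈ Λ} (x - l)` is invertible (the curve is ordinary) if and only if
`2 g ≤ p + 1`. -/
theorem result : ∀ (k : Type*) [Field k] [IsAlgClosed k] (p : ℕ) [Fact p.Prime] [CharP k p],
    2 < p → ∀ g : ℕ, 1 ≤ g →
    ((∀ Λ : Finset k, Λ.card = 2 * g →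
      ∃ μ : k, μ ∉ Λ ∧ (hasseWitt p g ((X - C μ) * ∏ l ∈ Λ, (X - C l))).det ≠ 0) ↔
      2 * g ≤ p + 1) := by
  intro k _ _ p _ _ hp2 g hg
  exact classification p hp2 g hg

end Pool.Agent.Results.MP_2ca583_ag.HasseWittClassification
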